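import Pool.Agent.G4.H.Main
import Pool.Agent.G4.A.BadC
import Pool.Agent.H17EF.Closed
import Pool.Agent.G3.F.Hyp
import Pool.Agent.TG.GuL
import Pool.Agent.TG.FMain

/-!
# G4 H Sml: few bad points, if the set of the bad points is covered by polydiscs of codimension `2`

`ba_closed'`, `ba_inv`: the set of the bad points is closed and invariant.  `few_ba`: it has few hits with the lines.  `exists_over`: a point of the cone over a point `y ∉ D`.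
-/

set_option autoImplicit false

open Topology Filter Metric MvPolynomial

namespace Pool.Agent.G4.H

open Pool.Agent.H17 (PN VanishesAt)
open Pool.Agent.H62.FC (Homog)
open Pool.Agent.H17LG.Variety (FunField)
open Pool.Agent.H17EF (projVar coneE LE mem_coneE mk_mem_projVar)
open Pool.Agent.H36.BP (EN)
open Pool.Agent.AD (Vd uV)
open Pool.Agent.TG (Lat VForm TransAt IsCoord)
open Pool.Agent.TGF (Cn)
open Pool.Agent.G3.A (Frm Ba)

variable {N k : ℕ} {X : Set (EN N)} {Λ Γ : AddSubgroup (Vd (k + 1))} {u : EN N → Vd (k + 1)} {D B : Set (Vd (k + 1))} {J r : ℕ}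
  {W : Fin r → Vd (k + 1) →L[ℂ] ℂ} {α : Fin J → VForm X Λ u} {a : Vd (k + 1)}

theorem ba_closed' (hD : IsClosed D) (hB : IsClosed B) (hco : ∀ y ∈ D, y ∉ B → ∃ κ : Vd (k + 1) → Vd (k + 1), IsCoord D κ y) : IsClosed (Ba D B a) := by
  rw [← isOpen_compl_iff, isOpen_iff_mem_nhds]
  intro q hq
  by_cases hqD : q ∈ D
  · have hq1 : ¬ (q ∈ B ∨ ¬ TransAt D q a) := fun h => hq ⟨hqD, h⟩
    push Not at hq1
    obtain ⟨κ, hκ⟩ := hco q hqD hq1.1
    have h1 : ∀ᶠ y in 𝓝 q, y ∉ B := hB.isOpen_compl.mem_nhds hq1.1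
    filter_upwards [h1, Pool.Agent.G4.A.trans_open hκ hq1.2] with y h2 h3 h4
    rcases h4.2 with h5 | h5
    · exact h2 h5
    · exact h5 (h3 h4.1)
  · have h1 : ∀ᶠ y in 𝓝 q, y ∉ D := hD.isOpen_compl.mem_nhds hqD
    filter_upwards [h1] with y h2 h3
    exact h2 h3.1

theorem ba_inv (hDi : ∀ y ∈ D, ∀ l ∈ Λ, y + l ∈ D) (hBi : ∀ y ∈ B, ∀ l ∈ Λ, y + l ∈ B) : ∀ y ∈ Ba D B a, ∀ l ∈ Λ, y + l ∈ Ba D B a := by
  intro β hβ l hl
  refine ⟨hDi β hβ.1 l hl, ?_⟩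
  rcases hβ.2 with h | h
  · exact Or.inl (hBi β h l hl)
  · refine Or.inr fun h' => h ⟨h'.1, fun κ hκ q hq => ?_⟩
    have hfd : fderiv ℂ (fun q => κ q + l) 0 = fderiv ℂ κ 0 := by rw [fderiv_add_const]
    have hκ' : IsCoord D (fun q => κ q + l) (β + l) := by
      refine ⟨hκ.an.add analyticAt_const, by rw [hκ.zero], by rw [hfd]; exact hκ.inj, ?_⟩
      filter_upwards [hκ.mem_iff] with q hq
      rw [← hq]
      constructor
      · intro h1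
        have h2 := hDi _ h1 _ (Λ.neg_mem hl)
        rwa [add_neg_cancel_right] at h2
      · intro h1
        exact hDi _ h1 l hl
    have h1 := h'.2 _ hκ' q hq
    rwa [hfd] at h1

theorem few_ba (hΛ : Lat Λ) (hs : Simp Λ) (hF : Frm X Λ u D Γ W α) (hx : ∃ y ∉ D, ∃ x ∈ X, u x - y ∈ Λ) (hDc : IsClosed D) (hDi : ∀ y ∈ D, ∀ l ∈ Λ, y + l ∈ D)
    (hBc : IsClosed B) (hBi : ∀ y ∈ B, ∀ l ∈ Λ, y + l ∈ B) (hco : ∀ y ∈ D, y ∉ B → ∃ κ : Vd (k + 1) → Vd (k + 1), IsCoord D κ y) (hZ : Cov (Ba D B a)) (ha : a ≠ 0) :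
    Few (Ba D B a) a :=
  few_of_cov hΛ hs hF hx (ba_closed' hDc hBc hco) (ba_inv hDi hBi) hZ ha

/-- a point of the cone over a point outside `D` -/
theorem exists_over {P : Ideal (MvPolynomial (Fin (N + 1)) ℂ)} [P.IsPrime] (hP : Homog P) (hdim : ∃ z : Fin (k + 2) → FunField P, IsTranscendenceBasis ℂ z)
    {Λ : AddSubgroup (Cn (k + 1))} {u : PN N → Cn (k + 1) ⧸ Λ} {D : Set (Cn (k + 1))}
    (hR : ∃ (e : ℕ) (R : MvPolynomial (Fin (N + 1)) ℂ), R.IsHomogeneous e ∧ R ∉ P ∧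
      ∀ x ∈ projVar P, (∃ y ∈ D, u x = (y : Cn (k + 1) ⧸ Λ)) → VanishesAt R x) :
    ∃ y ∉ D, ∃ x ∈ coneE P, uV Λ u x - y ∈ Λ := by
  obtain ⟨z, hz⟩ := hdim
  obtain ⟨e, R, hRe, hRP, hRv⟩ := hR
  obtain ⟨j₀, hj₀⟩ := Pool.Agent.H92.GT.Proj.exists_coordFun_ne_zero P z hz
  have hXP : ∃ i, (MvPolynomial.X i : MvPolynomial (Fin (N + 1)) ℂ) ∉ P := ⟨j₀, Pool.Agent.H17R.coordFun_ne_zero_iff.1 hj₀⟩
  obtain ⟨x, hx, hxR⟩ := Pool.Agent.H17EF.exists_point hP hXP hRP hRe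
  obtain ⟨y, hy⟩ := QuotientAddGroup.mk_surjective (u x)
  have h1 : (LE N).symm (LE N x.rep) = x.rep := (LE N).symm_apply_apply x.rep
  have h0 : (LE N).symm (LE N x.rep) ≠ 0 := by
    rw [h1]
    exact x.rep_nonzero
  refine ⟨y, fun hyD => hxR (hRv x hx ⟨y, hyD, hy.symm⟩), LE N x.rep, ?_, ?_⟩
  · refine (mem_coneE hP).2 ?_
    rw [h1]
    exact ⟨x.rep_nonzero, by rw [x.mk_rep]; exact hx⟩
  · rw [Pool.Agent.AD.sub_mem_iff, Pool.Agent.AD.uV_eq Λ u h0]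
    have h3 : ∀ (w : Fin (N + 1) → ℂ) (hw : w ≠ 0), w = x.rep → Projectivization.mk ℂ w hw = x := by
      rintro _ hw rfl
      exact x.mk_rep
    rw [h3 _ h0 h1]
    exact hy.symm

end Pool.Agent.G4.H
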