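import Pool.Agent.G4.H.Defs

/-!
# G4 H Bas: real bases in lattices

`exists_rb`: the lattice `Γ` contains a real basis (`Γ` spans `ℂ^(k+1)` over `ℝ`: a proper real subspace does not have all points within distance `R`).  `lv_mem`, `lv_add`.  `lv_red`: every point is within distance `R` of a point `lv b c`.
`lv_mul`: for `Γ ≤ Λ`, `b` in `Γ`: there is `m ≥ 1` with `m l ∈ {lv b c}` for all `l ∈ Λ` (`Λ / {lv b c}` is finite: the representatives within distance `R` of `0` are finitely many, `Λ` is discrete).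
`lv_low`: `‖lv b c‖ ≥ κ * ∑ |c i|`.
-/

set_option autoImplicit false

open Topology Filter Metric

namespace Pool.Agent.G4.H

open Pool.Agent.AD (Vd)
open Pool.Agent.TG (Lat)
open Pool.Agent.G3 (wt)

variable {k r : ℕ} {Λ Γ : AddSubgroup (Vd (k + 1))}

private theorem Bas_span {n : ℕ} {L : AddSubgroup (Vd n)} {R : ℝ} (h : ∀ y : Vd n, ∃ l ∈ L, ‖y - l‖ ≤ R) :
    Submodule.span ℝ (L : Set (Vd n)) = ⊤ := by
  by_contra hne
  obtain ⟨f, hf, hle⟩ := Submodule.exists_le_ker_of_lt_top _ (lt_top_iff_ne_top.2 hne)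
  obtain ⟨y, hy⟩ : ∃ y, f y ≠ 0 := by
    by_contra hcon
    push Not at hcon
    exact hf (LinearMap.ext hcon)
  set g := LinearMap.toContinuousLinearMap f with hg
  obtain ⟨l, hl, hyl⟩ := h (((‖g‖ * R + 1) / f y) • y)
  have h1 : f l = 0 := hle (Submodule.subset_span hl)
  have h2 : f (((‖g‖ * R + 1) / f y) • y - l) = ‖g‖ * R + 1 := by
    rw [map_sub, h1, map_smul, smul_eq_mul, sub_zero, div_mul_cancel₀ _ hy]
  have h3 : ‖g (((‖g‖ * R + 1) / f y) • y - l)‖ ≤ ‖g‖ * R :=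
    (g.le_opNorm _).trans (mul_le_mul_of_nonneg_left hyl (norm_nonneg _))
  have h4 : g (((‖g‖ * R + 1) / f y) • y - l) = ‖g‖ * R + 1 := h2
  rw [h4] at h3
  have h5 := (le_abs_self (‖g‖ * R + 1)).trans h3
  linarith

theorem exists_rb (hΓ : Lat Γ) : ∃ b : RB k, ∀ i, b i ∈ Γ := by
  obtain ⟨R, -, hR⟩ := hΓ.cpt
  have hs : ⊤ ≤ Submodule.span ℝ (Γ : Set (Vd (k + 1))) := (Bas_span hR).ge
  let B := Module.Basis.ofSpan hs
  have hB : ∀ i, B i ∈ (Γ : Set (Vd (k + 1))) := fun i =>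
    Module.Basis.ofSpan_subset hs (Set.mem_range_self i)
  letI := FiniteDimensional.fintypeBasisIndex B
  have hc : Fintype.card ((linearIndepOn_empty ℝ (id : Vd (k + 1) → Vd (k + 1))).extend (Set.empty_subset (Γ : Set (Vd (k + 1))))) =
      2 * (k + 1) := by
    rw [← Module.finrank_eq_card_basis B, finrank_real_of_complex, Module.finrank_fin_fun]
  refine ⟨B.reindex (Fintype.equivFinOfCardEq hc), fun i => ?_⟩
  rw [Module.Basis.reindex_apply]
  exact hB _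

theorem lv_mem {b : RB k} (hb : ∀ i, b i ∈ Γ) (c : Fin (2 * (k + 1)) → ℤ) : lv b c ∈ Γ := by
  refine AddSubgroup.sum_mem _ fun i _ => ?_
  rw [Int.cast_smul_eq_zsmul]
  exact AddSubgroup.zsmul_mem _ (hb i) (c i)

theorem lv_add (b : RB k) (c c' : Fin (2 * (k + 1)) → ℤ) : lv b (c + c') = lv b c + lv b c' := by
  unfold lv
  rw [← Finset.sum_add_distrib]
  refine Finset.sum_congr rfl fun i _ => ?_
  rw [Pi.add_apply, Int.cast_add, add_smul]

private theorem Bas_eq (b : RB k) (c : Fin (2 * (k + 1)) → ℤ) : lv b c = b.equivFun.symm fun i => (c i : ℝ) := by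
  rw [Module.Basis.equivFun_symm_apply]
  rfl

private theorem Bas_nsmul (b : RB k) (n : ℕ) (c : Fin (2 * (k + 1)) → ℤ) : n • lv b c = lv b (n • c) := by
  rw [Bas_eq, Bas_eq, ← map_nsmul]
  congr 1
  funext i
  simp

private theorem Bas_sub (b : RB k) (c c' : Fin (2 * (k + 1)) → ℤ) : lv b c - lv b c' = lv b (c - c') := by
  rw [Bas_eq, Bas_eq, Bas_eq, ← map_sub]
  congr 1
  funext i
  simp

theorem lv_red (b : RB k) : ∃ R : ℝ, 0 < R ∧ ∀ y : Vd (k + 1), ∃ c : Fin (2 * (k + 1)) → ℤ, ‖y - lv b c‖ ≤ R := by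
  have h0 : (0 : ℝ) ≤ ∑ i, ‖b i‖ := Finset.sum_nonneg fun _ _ => norm_nonneg _
  refine ⟨∑ i, ‖b i‖ + 1, by linarith, fun y => ⟨fun i => ⌊b.equivFun y i⌋, ?_⟩⟩
  have h1 : y - lv b (fun i => ⌊b.equivFun y i⌋) = ∑ i, Int.fract (b.equivFun y i) • b i := by
    conv_lhs => rw [← b.sum_equivFun y]
    unfold lv
    rw [← Finset.sum_sub_distrib]
    refine Finset.sum_congr rfl fun i _ => ?_
    rw [← sub_smul]
    simp only [b.sum_equivFun]
    rfl
  rw [h1]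
  have h2 : ‖∑ i, Int.fract (b.equivFun y i) • b i‖ ≤ ∑ i, ‖b i‖ := by
    refine (norm_sum_le _ _).trans (Finset.sum_le_sum fun i _ => ?_)
    rw [norm_smul, Real.norm_eq_abs, abs_of_nonneg (Int.fract_nonneg _)]
    exact mul_le_of_le_one_left (norm_nonneg _) (Int.fract_lt_one _).le
  linarith

theorem lv_low (b : RB k) : ∃ κ : ℝ, 0 < κ ∧ ∀ c : Fin (2 * (k + 1)) → ℤ, κ * ∑ i, |(c i : ℝ)| ≤ ‖lv b c‖ := by
  obtain ⟨K, hK, ha⟩ := LinearMap.exists_antilipschitzWith (b.equivFun.symm : (Fin (2 * (k + 1)) → ℝ) →ₗ[ℝ] Vd (k + 1))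
    (LinearEquiv.ker _)
  have hK' : (0 : ℝ) < K := hK
  have hn : (0 : ℝ) < 2 * (k + 1) := by positivity
  refine ⟨(2 * (k + 1) * K)⁻¹, by positivity, fun c => ?_⟩
  rw [inv_mul_le_iff₀ (by positivity)]
  have h1 := ha.le_mul_dist (fun i => (c i : ℝ)) 0
  rw [map_zero, dist_zero_right, dist_zero_right] at h1
  have h2 : ‖(fun i => (c i : ℝ))‖ ≤ K * ‖lv b c‖ := by
    rw [Bas_eq]
    exact h1
  have h3 : ∑ i, |(c i : ℝ)| ≤ ∑ _i : Fin (2 * (k + 1)), ‖(fun i => (c i : ℝ))‖ :=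
    Finset.sum_le_sum fun i _ => norm_le_pi_norm (fun i => (c i : ℝ)) i
  rw [Finset.sum_const, Finset.card_univ, Fintype.card_fin, nsmul_eq_mul] at h3
  push_cast at h3
  calc ∑ i, |(c i : ℝ)| ≤ 2 * (k + 1) * ‖(fun i => (c i : ℝ))‖ := h3
    _ ≤ 2 * (k + 1) * (K * ‖lv b c‖) := mul_le_mul_of_nonneg_left h2 hn.le
    _ = 2 * (k + 1) * K * ‖lv b c‖ := by ring

private theorem Bas_fin {L : AddSubgroup (Vd (k + 1))} (hL : Lat L) (R : ℝ) : {l | l ∈ L ∧ ‖l‖ ≤ R}.Finite := by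
  obtain ⟨δ, hδ, hd⟩ := hL.disc
  obtain ⟨t, -, htf, ht⟩ := (isCompact_closedBall (0 : Vd (k + 1)) R).finite_cover_balls (half_pos hδ)
  have h1 : {l | l ∈ L ∧ ‖l‖ ≤ R} ⊆ ⋃ x ∈ t, {l | l ∈ L ∧ l ∈ ball x (δ / 2)} := by
    rintro l ⟨hl, hn⟩
    have h2 := ht (mem_closedBall_zero_iff.2 hn)
    obtain ⟨x, hx, hlx⟩ := Set.mem_iUnion₂.1 h2
    exact Set.mem_iUnion₂.2 ⟨x, hx, hl, hlx⟩
  refine (htf.biUnion fun x _ => ?_).subset h1
  refine Set.Subsingleton.finite fun l hl l' hl' => ?_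
  have h2 : ‖l - l'‖ < δ := by
    rw [← dist_eq_norm]
    have h3 := dist_triangle_right l l' x
    have h4 := mem_ball.1 hl.2
    have h5 := mem_ball.1 hl'.2
    linarith
  exact sub_eq_zero.1 (hd _ (L.sub_mem hl.1 hl'.1) h2)

theorem lv_mul (hΛ : Lat Λ) {b : RB k} (hb : ∀ i, b i ∈ Λ) : ∃ m : ℕ, 1 ≤ m ∧ ∀ l ∈ Λ, ∃ c : Fin (2 * (k + 1)) → ℤ, m • l = lv b c := by
  obtain ⟨R, hR, hred⟩ := lv_red b
  have hF := Bas_fin hΛ R
  set F := hF.toFinset with hFd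
  refine ⟨F.card.factorial, Nat.one_le_iff_ne_zero.2 (Nat.factorial_ne_zero _), fun l hl => ?_⟩
  choose c hc using fun j : ℕ => hred (j • l)
  have hmaps : ∀ j ∈ Finset.range (F.card + 1), j • l - lv b (c j) ∈ F := by
    intro j _
    rw [hFd, Set.Finite.mem_toFinset]
    exact ⟨Λ.sub_mem (Λ.nsmul_mem hl j) (lv_mem hb _), hc j⟩
  obtain ⟨i, hi, j, hj, hij, he⟩ := Finset.exists_ne_map_eq_of_card_lt_of_maps_to
    (by rw [Finset.card_range]; exact Nat.lt_succ_self _) hmaps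
  have key : ∀ i j : ℕ, i < j → j < F.card + 1 → i • l - lv b (c i) = j • l - lv b (c j) →
      ∃ c' : Fin (2 * (k + 1)) → ℤ, F.card.factorial • l = lv b c' := by
    intro i j hij hj he
    have h1 : (j - i) • l = lv b (c j - c i) := by
      rw [← Bas_sub, sub_nsmul l hij.le]
      have h2 : j • l = i • l - lv b (c i) + lv b (c j) := by
        rw [he, sub_add_cancel]
      rw [h2]
      abel
    obtain ⟨q, hq⟩ := Nat.dvd_factorial (Nat.sub_pos_of_lt hij) (by omega : j - i ≤ F.card)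
    refine ⟨q • (c j - c i), ?_⟩
    rw [← Bas_nsmul, ← h1, smul_smul, mul_comm, ← hq]
  rw [Finset.mem_range] at hi hj
  rcases lt_or_gt_of_ne hij with h | h
  · exact key i j h hj he
  · exact key j i h hi he.symm

/-- the weight is positive definite -/
theorem wt_low {W : Fin r → Vd (k + 1) →L[ℂ] ℂ} (hW : ∀ y, (∀ i, W i y = 0) → y = 0) : ∃ c₀ : ℝ, 0 < c₀ ∧ ∀ y, c₀ * ‖y‖ ^ 2 ≤ wt W y := by
  let T : Vd (k + 1) →ₗ[ℂ] (Fin r → ℂ) := LinearMap.pi fun i => (W i : Vd (k + 1) →ₗ[ℂ] ℂ)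
  have hT : LinearMap.ker T = ⊥ := by
    rw [LinearMap.ker_eq_bot']
    intro y hy
    exact hW y fun i => congrFun hy i
  obtain ⟨K, hK, ha⟩ := LinearMap.exists_antilipschitzWith T hT
  have hK' : (0 : ℝ) < K := hK
  refine ⟨((K : ℝ) ^ 2)⁻¹, by positivity, fun y => ?_⟩
  rw [inv_mul_le_iff₀ (by positivity)]
  have h1 := ha.le_mul_dist y 0
  rw [map_zero, dist_zero_right, dist_zero_right] at h1
  have hw : 0 ≤ wt W y := Finset.sum_nonneg fun i _ => sq_nonneg _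
  have h2 : ‖T y‖ ≤ Real.sqrt (wt W y) := by
    refine (pi_norm_le_iff_of_nonneg (Real.sqrt_nonneg _)).2 fun i => ?_
    refine Real.le_sqrt_of_sq_le ?_
    exact Finset.single_le_sum (f := fun i => ‖W i y‖ ^ 2) (fun _ _ => sq_nonneg _) (Finset.mem_univ i)
  have h3 : ‖y‖ ≤ K * Real.sqrt (wt W y) := h1.trans (mul_le_mul_of_nonneg_left h2 hK'.le)
  calc ‖y‖ ^ 2 ≤ (K * Real.sqrt (wt W y)) ^ 2 := pow_le_pow_left₀ (norm_nonneg _) h3 2
    _ = K ^ 2 * wt W y := by rw [mul_pow, Real.sq_sqrt hw]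

end Pool.Agent.G4.H
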