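import Pool.Agent.G4.H.Defs

/-!
# G4 H Coc: the theta factors of the top forms have the cocycle property

From `hF.per j` (`Tht`) choose for `l ∈ Γ` the factor `e l y = exp (L y + c)`.  The factors of the different `α j` have the same modulus; fix one `j`?  No: take a point `y₁ ∉ D`, `x₁ ∈ X` over it; by `hF.sep` some `α j` is not `0` at
`(y₁, x₁)`; use this `j` only.  Where `α j (y, x, v) ≠ 0`: `e (l + l') y = e l (y + l') * e l' y`; this holds at `y₁ + l''` for `l'' ∈ Γ` and for `y` near `y₁`?  The set of the `y` with `(α j).toFun y x v ≠ 0` for some `x`, `v` may be small, so use: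
both sides are `exp` of affine functions of `y` with the same modulus everywhere (`nrm`), so their quotient is a constant `q (l, l')` of modulus `1` (`exp` of an affine function with constant modulus is constant), and at `y₁` (where `α j ≠ 0`)
the quotient is `1`.
-/

set_option autoImplicit false

open Topology Filter Metric

namespace Pool.Agent.G4.H

open Pool.Agent.H36.BP (EN)
open Pool.Agent.AD (Vd)
open Pool.Agent.TG (Lat VForm)
open Pool.Agent.G3 (wt)
open Pool.Agent.G3.A (Frm)

variable {N k : ℕ} {X : Set (EN N)} {Λ Γ : AddSubgroup (Vd (k + 1))} {u : EN N → Vd (k + 1)} {D : Set (Vd (k + 1))} {J r : ℕ}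
  {W : Fin r → Vd (k + 1) →L[ℂ] ℂ} {α : Fin J → VForm X Λ u}

theorem thf_of_frm (hF : Frm X Λ u D Γ W α) (hx : ∃ y ∉ D, ∃ x ∈ X, u x - y ∈ Λ) : ∃ e : Vd (k + 1) → Vd (k + 1) → ℂ, ThF Γ W e := by
  classical
  obtain ⟨y₁, hy₁, x₁, hx₁, hu₁⟩ := hx
  obtain ⟨j, v, hv, hne⟩ := hF.sep y₁ hy₁ x₁ hx₁ hu₁
  have key : ∀ l : Vd (k + 1), ∃ (L : Vd (k + 1) →L[ℂ] ℂ) (c : ℂ), l ∈ Γ → ((∀ y, ‖Complex.exp (L y + c)‖ = Real.exp (wt W y - wt W (y + l))) ∧
      ∀ y, ∀ x ∈ X, u x - y ∈ Λ → ∀ v : Fin (k + 2) → EN N, (∀ i, Pool.Agent.H14.PP.Tan X x (v i)) →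
        (α j).toFun (y + l) x v = Complex.exp (L y + c) * (α j).toFun y x v) := by
    intro l
    by_cases hl : l ∈ Γ
    · obtain ⟨L, c, h1, h2⟩ := hF.per j l hl
      exact ⟨L, c, fun _ => ⟨h1, h2⟩⟩
    · exact ⟨0, 0, fun h => absurd h hl⟩
  choose L c hLc using key
  refine ⟨fun l y => Complex.exp (L l y + c l), hF.lat, hF.pos, ?_, ?_, ?_⟩
  · intro l _ y
    exact (((L l).analyticAt y).add analyticAt_const).cexp
  · intro l hl y
    exact (hLc l hl).1 y
  · intro l hl l' hl' y
    have hll : l + l' ∈ Γ := Γ.add_mem hl hl'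
    -- the difference of the exponents is a constant
    have hre : ∀ z : Vd (k + 1), ((L (l + l') z + c (l + l')) - ((L l (z + l') + c l) + (L l' z + c l'))).re = 0 := by
      intro z
      have h1 := (hLc (l + l') hll).1 z
      have h2 := (hLc l hl).1 (z + l')
      have h3 := (hLc l' hl').1 z
      rw [Complex.norm_exp] at h1 h2 h3
      have e1 := Real.exp_injective h1
      have e2 := Real.exp_injective h2
      have e3 := Real.exp_injective h3
      have e4 : z + (l + l') = z + l' + l := by abel
      rw [e4] at e1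
      simp only [Complex.sub_re, Complex.add_re] at e1 e2 e3 ⊢
      linarith
    have hM : ∀ z : Vd (k + 1), L (l + l') z - L l z - L l' z = 0 := by
      intro z
      have h0 := hre 0
      have h1 := hre z
      have h2 := hre (Complex.I • z)
      simp only [map_add, map_zero, map_smul, smul_eq_mul, Complex.sub_re, Complex.add_re, Complex.mul_re, Complex.I_re, Complex.I_im, zero_mul, one_mul, zero_sub, zero_add] at h0 h1 h2
      apply Complex.ext
      · simp only [Complex.sub_re, Complex.zero_re]
        linarith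
      · simp only [Complex.sub_im, Complex.zero_im]
        linarith
    have hconst : ∀ z : Vd (k + 1), L (l + l') z + c (l + l') = ((L l (z + l') + c l) + (L l' z + c l')) + (c (l + l') - c l - c l' - L l l') := by
      intro z
      have h := hM z
      rw [map_add]
      linear_combination h
    have hd : Complex.exp (c (l + l') - c l - c l' - L l l') = 1 := by
      have h1 := (hLc (l + l') hll).2 y₁ x₁ hx₁ hu₁ v hv
      have hu₂ : u x₁ - (y₁ + l') ∈ Λ := by
        rw [← sub_sub]
        exact Λ.sub_mem hu₁ (hF.le hl')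
      have h2 := (hLc l hl).2 (y₁ + l') x₁ hx₁ hu₂ v hv
      have h3 := (hLc l' hl').2 y₁ x₁ hx₁ hu₁ v hv
      have e4 : y₁ + (l + l') = y₁ + l' + l := by abel
      have hE : Complex.exp (L (l + l') y₁ + c (l + l')) = Complex.exp (L l (y₁ + l') + c l) * Complex.exp (L l' y₁ + c l') *
          Complex.exp (c (l + l') - c l - c l' - L l l') := by
        rw [hconst y₁, Complex.exp_add (L l (y₁ + l') + c l + (L l' y₁ + c l')), Complex.exp_add (L l (y₁ + l') + c l)]
      rw [e4, h2, h3, hE] at h1
      have hp1 : Complex.exp (L l (y₁ + l') + c l) ≠ 0 := Complex.exp_ne_zero _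
      have hp2 : Complex.exp (L l' y₁ + c l') ≠ 0 := Complex.exp_ne_zero _
      have h5 : (Complex.exp (L l (y₁ + l') + c l) * Complex.exp (L l' y₁ + c l') * (α j).toFun y₁ x₁ v) *
          (Complex.exp (c (l + l') - c l - c l' - L l l') - 1) = 0 := by
        linear_combination -h1
      rcases mul_eq_zero.1 h5 with h6 | h6
      · exact absurd h6 (mul_ne_zero (mul_ne_zero hp1 hp2) hne)
      · exact sub_eq_zero.1 h6
    show Complex.exp (L (l + l') y + c (l + l')) = Complex.exp (L l (y + l') + c l) * Complex.exp (L l' y + c l')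
    rw [hconst y, Complex.exp_add (L l (y + l') + c l + (L l' y + c l')), hd, mul_one, Complex.exp_add (L l (y + l') + c l)]

end Pool.Agent.G4.H
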