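import Pool.Agent.G3.A.Defs
import Pool.Agent.G4.Simp
import Pool.Agent.G4.Z.CDefs

/-!
# G4 H Defs: few bad hits, by theta functions; definitions

`ThF Γ W e`: theta factors `e l y` of the weight `wt W` for the lattice `Γ`, with the cocycle property.  `lv b c`: the vector `∑ c i b i`, `b` a real basis in `Γ`, `c` integral.  `ThM b W e M f`: `f` is a theta function of the
weight `M wt W` for the lattice spanned by `b`.  `dir a f`: the derivative in the direction `a`.  `Cov d Z`: near each of its points `Z` is the union of the images of finitely many holomorphic maps from the unit polydisc of `ℂ^d`.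
-/

set_option autoImplicit false

open Topology Filter Metric

namespace Pool.Agent.G4.H

open Pool.Agent.AD (Vd)
open Pool.Agent.TG (Lat)
open Pool.Agent.G3 (wt)

variable {k r : ℕ}

/-- theta factors of the weight `wt W` -/
structure ThF (Γ : AddSubgroup (Vd (k + 1))) (W : Fin r → Vd (k + 1) →L[ℂ] ℂ) (e : Vd (k + 1) → Vd (k + 1) → ℂ) : Prop where
  lat : Lat Γ
  pos : ∀ y, (∀ i, W i y = 0) → y = 0
  an : ∀ l ∈ Γ, ∀ y, AnalyticAt ℂ (e l) y
  nrm : ∀ l ∈ Γ, ∀ y, ‖e l y‖ = Real.exp (wt W y - wt W (y + l))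
  coc : ∀ l ∈ Γ, ∀ l' ∈ Γ, ∀ y, e (l + l') y = e l (y + l') * e l' y

/-- real bases of `ℂ^(k+1)` -/
abbrev RB (k : ℕ) : Type := Module.Basis (Fin (2 * (k + 1))) ℝ (Vd (k + 1))

/-- the integral combinations of the basis -/
noncomputable def lv (b : RB k) (c : Fin (2 * (k + 1)) → ℤ) : Vd (k + 1) := ∑ i, (c i : ℝ) • b i

/-- the Gaussian with the peak `p`: `‖pk W M p y‖ * exp (- M wt y) = exp (- M wt (y - p))` -/
noncomputable def pk (W : Fin r → Vd (k + 1) →L[ℂ] ℂ) (M : ℕ) (p y : Vd (k + 1)) : ℂ :=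
  Complex.exp ((M : ℂ) * ∑ i, (2 * (starRingEnd ℂ) (W i p) * W i y - (starRingEnd ℂ) (W i p) * W i p))

/-- the theta series with the peaks `p - lv b c` -/
noncomputable def th (b : RB k) (W : Fin r → Vd (k + 1) →L[ℂ] ℂ) (e : Vd (k + 1) → Vd (k + 1) → ℂ) (M : ℕ) (p y : Vd (k + 1)) : ℂ :=
  ∑' c : Fin (2 * (k + 1)) → ℤ, e (lv b c) y ^ M * pk W M p (y + lv b c)

/-- theta functions of the weight `M wt W` for the lattice spanned by `b` -/
structure ThM (b : RB k) (e : Vd (k + 1) → Vd (k + 1) → ℂ) (M : ℕ) (f : Vd (k + 1) → ℂ) : Prop where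
  an : ∀ y, AnalyticAt ℂ f y
  per : ∀ (c : Fin (2 * (k + 1)) → ℤ) (y : Vd (k + 1)), e (lv b c) y ^ M * f (y + lv b c) = f y

/-- the derivative in the direction `a` -/
noncomputable def dir (a : Vd (k + 1)) (f : Vd (k + 1) → ℂ) (y : Vd (k + 1)) : ℂ := fderiv ℂ f y a

/-- near each of its points `Z` is the union of the images of finitely many holomorphic maps from the unit polydisc of `ℂ^d` -/
def CovD (d : ℕ) (Z : Set (Vd (k + 1))) : Prop :=
  ∀ y ∈ Z, ∃ (s : ℕ) (β : Fin s → Vd d → Vd (k + 1)), (∀ i, AnalyticOnNhd ℂ (β i) (ball 0 1)) ∧ (∀ i, ∀ t ∈ ball (0 : Vd d) 1, β i t ∈ Z) ∧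
    ∀ᶠ y' in 𝓝 y, y' ∈ Z → ∃ i, ∃ t ∈ ball (0 : Vd d) (1 / 2), y' = β i t

/-- `Z` is empty or covered by polydiscs of codimension `2` -/
def Cov (Z : Set (Vd (k + 1))) : Prop := Z = ∅ ∨ ∃ d : ℕ, d + 1 = k ∧ CovD d Z

end Pool.Agent.G4.H
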