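import Pool.Agent.G4.H.Ser

/-!
# G4 H Dim: the dimension of the space of the theta functions of weight `M wt W` is at least `m ^ (2 (k + 1))`, `M = K m²`

`b`, `K` from `exists_rb`, `gsum_small`.  `p j = (1 / m) lv b j`, `j : Fin (2 (k + 1)) → Fin m`, `M = K * m ^ 2`.  For `x : (Fin (2 (k + 1)) → Fin m) → ℂ`, `f = ∑ j, x j • th b W e M (p j)`; take `j₀` with `‖x j‖ ≤ ‖x j₀‖` for all `j`; at `y = p j₀`:
the term `(j₀, c = 0)` of `∑ j, x j ∑' c, …` has normalised size `‖x j₀‖`; the other terms `(j, c)` have total size `≤ ‖x j₀‖ ∑ exp (- M wt (p j₀ + lv b c - p j))`, `p j₀ + lv b c - p j = (1 / m) lv b (j₀ - j + m c)`, `(j, c) ↦ j₀ - j + m c`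
injective and `≠ 0`, `M wt ((1 / m) v) = K wt v`: by `gsum_small` `≤ ‖x j₀‖ / 4`.  So `f (p j₀) ≠ 0` if `x ≠ 0`.  With fewer than `m ^ (2 (k + 1))` linear conditions there is `x ≠ 0` which satisfies all of them.
-/

set_option autoImplicit false

open Topology Filter Metric

namespace Pool.Agent.G4.H

open Pool.Agent.AD (Vd)
open Pool.Agent.TG (Lat)
open Pool.Agent.G3 (wt)

variable {k r : ℕ} {Γ : AddSubgroup (Vd (k + 1))} {W : Fin r → Vd (k + 1) →L[ℂ] ℂ} {e : Vd (k + 1) → Vd (k + 1) → ℂ}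

private theorem lv_comb (b : RB k) {m : ℕ} (hm : 1 ≤ m) (i j c : Fin (2 * (k + 1)) → ℤ) :
    (1 / (m : ℝ)) • lv b j + lv b c - (1 / (m : ℝ)) • lv b i = (1 / (m : ℝ)) • lv b (fun a => j a - i a + m * c a) := by
  have hm' : (m : ℝ) ≠ 0 := by exact_mod_cast (by omega : m ≠ 0)
  simp only [lv, Finset.smul_sum, ← Finset.sum_add_distrib, ← Finset.sum_sub_distrib, smul_smul, ← add_smul, ← sub_smul]
  refine Finset.sum_congr rfl fun a _ => ?_
  congr 1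
  push_cast
  field_simp
  ring

private theorem wt_div (W : Fin r → Vd (k + 1) →L[ℂ] ℂ) {m : ℕ} (hm : 1 ≤ m) (K : ℕ) (v : Vd (k + 1)) :
    ((K * m ^ 2 : ℕ) : ℝ) * wt W ((1 / (m : ℝ)) • v) = K * wt W v := by
  have hm' : (m : ℝ) ≠ 0 := by exact_mod_cast (by omega : m ≠ 0)
  have : wt W ((1 / (m : ℝ)) • v) = (1 / (m : ℝ)) ^ 2 * wt W v := by
    simp only [wt, Finset.mul_sum]
    refine Finset.sum_congr rfl fun i _ => ?_
    rw [ContinuousLinearMap.map_smul_of_tower, norm_smul, mul_pow, Real.norm_eq_abs, sq_abs]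
  rw [this]
  push_cast
  field_simp

private theorem idx_inj {ι : Type} {m : ℕ} (j i i' : ι → Fin m) (c c' : ι → ℤ)
    (h : (fun a => ((j a : ℕ) : ℤ) - ((i a : ℕ) : ℤ) + m * c a) = fun a => ((j a : ℕ) : ℤ) - ((i' a : ℕ) : ℤ) + m * c' a) : i = i' ∧ c = c' := by
  have h1 : ∀ a, ((i a : ℕ) : ℤ) - ((i' a : ℕ) : ℤ) = m * (c a - c' a) := fun a => by
    have := congrFun h a
    linarith
  have h2 : ∀ a, c a = c' a := by
    intro a
    have hi := (i a).2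
    have hi' := (i' a).2
    have e := h1 a
    by_contra hne
    rcases lt_or_gt_of_ne hne with hlt | hgt
    · have : (m : ℤ) * (c a - c' a) ≤ m * (-1) := mul_le_mul_of_nonneg_left (by omega) (by omega)
      omega
    · have : (m : ℤ) * 1 ≤ m * (c a - c' a) := mul_le_mul_of_nonneg_left (by omega) (by omega)
      omega
  refine ⟨?_, funext h2⟩
  funext a
  have e := h1 a
  rw [h2 a, sub_self, mul_zero] at e
  exact Fin.ext (by omega)

private theorem lv_zero (b : RB k) : lv b 0 = 0 := by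
  simp [lv]

private theorem main_bd (T : ThF Γ W e) {b : RB k} (hb : ∀ i, b i ∈ Γ) {K m : ℕ} (hm : 1 ≤ m)
    (hK : ∀ s : ℝ, K ≤ s → ∀ S : Finset (Fin (2 * (k + 1)) → ℤ), (0 : Fin (2 * (k + 1)) → ℤ) ∉ S → ∑ c ∈ S, Real.exp (-(s * wt W (lv b c))) ≤ 1 / 4)
    (x : (Fin (2 * (k + 1)) → Fin m) → ℂ) (j₀ : Fin (2 * (k + 1)) → Fin m) (hj : ∀ i, ‖x i‖ ≤ ‖x j₀‖) (S : Finset (Fin (2 * (k + 1)) → ℤ)) (hS : {0} ⊆ S)
    (p : (Fin (2 * (k + 1)) → Fin m) → Vd (k + 1)) (hp : ∀ i, p i = (1 / (m : ℝ)) • lv b (fun a => ((i a : ℕ) : ℤ))) :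
    ‖x j₀‖ * (3 / 4) ≤ ‖∑ c ∈ S, ∑ i, x i * (e (lv b c) (p j₀) ^ (K * m ^ 2) * pk W (K * m ^ 2) (p i) (p j₀ + lv b c))‖ * Real.exp (-(((K * m ^ 2 : ℕ) : ℝ) * wt W (p j₀))) := by
  classical
  set M : ℕ := K * m ^ 2 with hM
  set E : ℝ := Real.exp (-((M : ℝ) * wt W (p j₀))) with hE
  have hE0 : 0 < E := Real.exp_pos _
  set t : (Fin (2 * (k + 1)) → Fin m) × (Fin (2 * (k + 1)) → ℤ) → ℂ := fun q => x q.1 * (e (lv b q.2) (p j₀) ^ M * pk W M (p q.1) (p j₀ + lv b q.2)) with ht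
  have hsum : ∑ c ∈ S, ∑ i, x i * (e (lv b c) (p j₀) ^ M * pk W M (p i) (p j₀ + lv b c)) = ∑ q ∈ (Finset.univ : Finset (Fin (2 * (k + 1)) → Fin m)) ×ˢ S, t q := by
    rw [Finset.sum_product_right]
  have hmem : (j₀, (0 : Fin (2 * (k + 1)) → ℤ)) ∈ (Finset.univ : Finset (Fin (2 * (k + 1)) → Fin m)) ×ˢ S := by
    simp only [Finset.mem_product, Finset.mem_univ, true_and]
    exact hS (by simp)
  have htn : ∀ q, ‖t q‖ * E = ‖x q.1‖ * Real.exp (-(K * wt W (lv b (fun a => ((j₀ a : ℕ) : ℤ) - ((q.1 a : ℕ) : ℤ) + m * q.2 a)))) := by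
    intro q
    rw [ht]
    simp only
    rw [norm_mul, mul_assoc, hE, term_norm T hb M (p q.1) (p j₀) q.2, hp j₀, hp q.1, lv_comb b hm, hM, wt_div W hm]
  have h0 : ‖t (j₀, 0)‖ * E = ‖x j₀‖ := by
    rw [htn]
    have : (fun a => ((j₀ a : ℕ) : ℤ) - ((j₀ a : ℕ) : ℤ) + m * (0 : Fin (2 * (k + 1)) → ℤ) a) = 0 := by
      funext a; simp
    simp only [this, lv_zero]
    simp [wt]
  have hrest : ‖∑ q ∈ ((Finset.univ : Finset (Fin (2 * (k + 1)) → Fin m)) ×ˢ S).erase (j₀, 0), t q‖ * E ≤ ‖x j₀‖ * (1 / 4) := by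
    calc ‖∑ q ∈ ((Finset.univ : Finset (Fin (2 * (k + 1)) → Fin m)) ×ˢ S).erase (j₀, 0), t q‖ * E
        ≤ (∑ q ∈ ((Finset.univ : Finset (Fin (2 * (k + 1)) → Fin m)) ×ˢ S).erase (j₀, 0), ‖t q‖) * E := mul_le_mul_of_nonneg_right (norm_sum_le _ _) hE0.le
      _ = ∑ q ∈ ((Finset.univ : Finset (Fin (2 * (k + 1)) → Fin m)) ×ˢ S).erase (j₀, 0), ‖x q.1‖ * Real.exp (-(K * wt W (lv b (fun a => ((j₀ a : ℕ) : ℤ) - ((q.1 a : ℕ) : ℤ) + m * q.2 a)))) := by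
          rw [Finset.sum_mul]
          exact Finset.sum_congr rfl fun q _ => htn q
      _ ≤ ∑ q ∈ ((Finset.univ : Finset (Fin (2 * (k + 1)) → Fin m)) ×ˢ S).erase (j₀, 0), ‖x j₀‖ * Real.exp (-(K * wt W (lv b (fun a => ((j₀ a : ℕ) : ℤ) - ((q.1 a : ℕ) : ℤ) + m * q.2 a)))) :=
          Finset.sum_le_sum fun q _ => mul_le_mul_of_nonneg_right (hj q.1) (Real.exp_pos _).le
      _ = ‖x j₀‖ * ∑ v ∈ (((Finset.univ : Finset (Fin (2 * (k + 1)) → Fin m)) ×ˢ S).erase (j₀, 0)).image (fun q a => ((j₀ a : ℕ) : ℤ) - ((q.1 a : ℕ) : ℤ) + m * q.2 a), Real.exp (-(K * wt W (lv b v))) := by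
          rw [← Finset.mul_sum, Finset.sum_image]
          intro q _ q' _ hqq
          obtain ⟨h1, h2⟩ := idx_inj j₀ q.1 q'.1 q.2 q'.2 hqq
          exact Prod.ext h1 h2
      _ ≤ ‖x j₀‖ * (1 / 4) := by
          refine mul_le_mul_of_nonneg_left (hK K le_rfl _ ?_) (norm_nonneg _)
          intro hmem0
          obtain ⟨q, hq, hq0⟩ := Finset.mem_image.1 hmem0
          have hq1 := (Finset.mem_erase.1 hq).1
          apply hq1
          have : (fun a => ((j₀ a : ℕ) : ℤ) - ((q.1 a : ℕ) : ℤ) + m * q.2 a) = fun a => ((j₀ a : ℕ) : ℤ) - ((j₀ a : ℕ) : ℤ) + m * (0 : Fin (2 * (k + 1)) → ℤ) a := by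
            rw [hq0]; funext a; simp
          obtain ⟨h1, h2⟩ := idx_inj j₀ q.1 j₀ q.2 0 this
          exact Prod.ext h1 h2
  rw [hsum, ← Finset.add_sum_erase _ _ hmem]
  have htri : ‖t (j₀, 0)‖ - ‖∑ q ∈ ((Finset.univ : Finset (Fin (2 * (k + 1)) → Fin m)) ×ˢ S).erase (j₀, 0), t q‖ ≤ ‖t (j₀, 0) + ∑ q ∈ ((Finset.univ : Finset (Fin (2 * (k + 1)) → Fin m)) ×ˢ S).erase (j₀, 0), t q‖ := by
    have := norm_sub_le (t (j₀, 0) + ∑ q ∈ ((Finset.univ : Finset (Fin (2 * (k + 1)) → Fin m)) ×ˢ S).erase (j₀, 0), t q) (∑ q ∈ ((Finset.univ : Finset (Fin (2 * (k + 1)) → Fin m)) ×ˢ S).erase (j₀, 0), t q)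
    rw [add_sub_cancel_right] at this
    linarith
  have := mul_le_mul_of_nonneg_right htri hE0.le
  rw [sub_mul] at this
  linarith

private theorem lin_sum (Φ : (Vd (k + 1) → ℂ) → ℂ)
    (hΦ : ∀ (f g : Vd (k + 1) → ℂ) (c : ℂ), (∀ y, AnalyticAt ℂ f y) → (∀ y, AnalyticAt ℂ g y) → Φ (fun y => f y + c * g y) = Φ f + c * Φ g)
    {ι : Type} (s : Finset ι) (x : ι → ℂ) (g : ι → Vd (k + 1) → ℂ) (hg : ∀ i, ∀ y, AnalyticAt ℂ (g i) y) :
    Φ (fun y => ∑ i ∈ s, x i * g i y) = ∑ i ∈ s, x i * Φ (g i) := by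
  classical
  induction s using Finset.induction_on with
  | empty =>
    have := hΦ (fun _ => 0) (fun _ => 0) (-1) (fun y => analyticAt_const) (fun y => analyticAt_const)
    simp only [mul_zero, add_zero] at this
    simp only [Finset.sum_empty]
    linear_combination this
  | insert a s ha ih =>
    have hs : ∀ y, AnalyticAt ℂ (fun y => ∑ i ∈ s, x i * g i y) y := fun y =>
      Finset.analyticAt_fun_sum s fun i _ => analyticAt_const.mul (hg i y)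
    have := hΦ (fun y => ∑ i ∈ s, x i * g i y) (g a) (x a) hs (hg a)
    rw [ih] at this
    have hfun : (fun y => ∑ i ∈ insert a s, x i * g i y) = fun y => ∑ i ∈ s, x i * g i y + x a * g a y := by
      funext y
      rw [Finset.sum_insert ha]
      ring
    rw [hfun, this, Finset.sum_insert ha]
    ring

theorem theta_ex (T : ThF Γ W e) {b : RB k} (hb : ∀ i, b i ∈ Γ) : ∃ K : ℕ, 1 ≤ K ∧ ∀ m : ℕ, 1 ≤ m → ∀ (J : Type) [Fintype J] (Φ : J → (Vd (k + 1) → ℂ) → ℂ),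
    (∀ j (f g : Vd (k + 1) → ℂ) (c : ℂ), (∀ y, AnalyticAt ℂ f y) → (∀ y, AnalyticAt ℂ g y) → Φ j (fun y => f y + c * g y) = Φ j f + c * Φ j g) →
    Fintype.card J < m ^ (2 * (k + 1)) → ∃ f : Vd (k + 1) → ℂ, ThM b e (K * m ^ 2) f ∧ (∃ y, f y ≠ 0) ∧ ∀ j, Φ j f = 0 := by
  classical
  obtain ⟨K, hK1, hK⟩ := gsum_small T.pos b
  refine ⟨K, hK1, fun m hm J _ Φ hΦ hcard => ?_⟩
  have hM1 : 1 ≤ K * m ^ 2 := Nat.one_le_iff_ne_zero.2 (by positivity)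
  set p : (Fin (2 * (k + 1)) → Fin m) → Vd (k + 1) := fun i => (1 / (m : ℝ)) • lv b (fun a => ((i a : ℕ) : ℤ)) with hp
  set θ : (Fin (2 * (k + 1)) → Fin m) → Vd (k + 1) → ℂ := fun i => th b W e (K * m ^ 2) (p i) with hθ
  have hθm : ∀ i, ThM b e (K * m ^ 2) (θ i) := fun i => th_thm T hb hM1 (p i)
  let L : ((Fin (2 * (k + 1)) → Fin m) → ℂ) →ₗ[ℂ] (J → ℂ) :=
    { toFun := fun x j => ∑ i, x i * Φ j (θ i)
      map_add' := fun x x' => by
        funext j; simp only [Pi.add_apply, add_mul, Finset.sum_add_distrib]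
      map_smul' := fun c x => by
        funext j; simp only [Pi.smul_apply, smul_eq_mul, RingHom.id_apply, Finset.mul_sum, mul_assoc] }
  have hker : LinearMap.ker L ≠ ⊥ := by
    apply LinearMap.ker_ne_bot_of_finrank_lt
    simpa [Module.finrank_fintype_fun_eq_card, Fintype.card_fun] using hcard
  obtain ⟨x, hxL, hx0⟩ := (Submodule.ne_bot_iff _).1 hker
  have hLx : ∀ j, ∑ i, x i * Φ j (θ i) = 0 := fun j => congrFun (LinearMap.mem_ker.1 hxL) j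
  refine ⟨fun y => ∑ i, x i * θ i y, ⟨?_, ?_⟩, ?_, ?_⟩
  · exact fun y => Finset.analyticAt_fun_sum _ fun i _ => analyticAt_const.mul ((hθm i).an y)
  · intro c y
    rw [Finset.mul_sum]
    refine Finset.sum_congr rfl fun i _ => ?_
    rw [← (hθm i).per c y]
    ring
  · obtain ⟨i₁, hi₁⟩ := Function.ne_iff.1 hx0
    have : Nonempty (Fin (2 * (k + 1)) → Fin m) := ⟨i₁⟩
    obtain ⟨j₀, hj₀⟩ := Finite.exists_max (fun i => ‖x i‖)
    have hxj : 0 < ‖x j₀‖ := lt_of_lt_of_le (norm_pos_iff.2 hi₁) (hj₀ i₁)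
    refine ⟨p j₀, ?_⟩
    have hs : HasSum (fun c => ∑ i, x i * (e (lv b c) (p j₀) ^ (K * m ^ 2) * pk W (K * m ^ 2) (p i) (p j₀ + lv b c))) (∑ i, x i * θ i (p j₀)) := by
      apply hasSum_sum
      intro i _
      exact ((th_summable T hb hM1 (p i) (p j₀)).of_norm.hasSum).mul_left (x i)
    have ht : Tendsto (fun S : Finset (Fin (2 * (k + 1)) → ℤ) => ‖∑ c ∈ S, ∑ i, x i * (e (lv b c) (p j₀) ^ (K * m ^ 2) * pk W (K * m ^ 2) (p i) (p j₀ + lv b c))‖ * Real.exp (-(((K * m ^ 2 : ℕ) : ℝ) * wt W (p j₀)))) atTop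
        (𝓝 (‖∑ i, x i * θ i (p j₀)‖ * Real.exp (-(((K * m ^ 2 : ℕ) : ℝ) * wt W (p j₀))))) := (Tendsto.norm hs).mul_const _
    have hge := ge_of_tendsto ht ((eventually_ge_atTop {0}).mono fun S hS => main_bd T hb hm hK x j₀ hj₀ S hS p (fun i => rfl))
    intro h0
    replace h0 : ∑ i, x i * θ i (p j₀) = 0 := h0
    rw [h0, norm_zero, zero_mul] at hge
    linarith
  · intro j
    rw [lin_sum (Φ j) (hΦ j) Finset.univ x θ fun i y => (hθm i).an y]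
    exact hLx j

end Pool.Agent.G4.H
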