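import Pool.Agent.G4.H.Defs

/-!
# G4 H Dir: the derivatives in the direction `a`

`dir_iter_per`: if the derivatives of `f` of the orders `< j` vanish at `y` and at `y + lv b c`, then those of order `j` transform with the factor (the functions `z ↦ f (y + z a)` and `z ↦ f (y + lv b c + z a)` have zeros of order `≥ j` at `0`).
`dir_zero`: the order of the zero of `z ↦ f (y + z a)`.
-/

set_option autoImplicit false

open Topology Filter Metric

namespace Pool.Agent.G4.H

open Pool.Agent.AD (Vd)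
open Pool.Agent.G3 (wt)

variable {k r : ℕ} {a : Vd (k + 1)} {f g : Vd (k + 1) → ℂ}

private lemma dir_an1 (hf : ∀ y, AnalyticAt ℂ f y) : ∀ y, AnalyticAt ℂ (dir a f) y := by
  intro y
  have h1 : AnalyticAt ℂ (fderiv ℂ f) y := (hf y).fderiv
  exact ((ContinuousLinearMap.apply ℂ ℂ a).analyticAt (fderiv ℂ f y)).comp h1

theorem dir_an (hf : ∀ y, AnalyticAt ℂ f y) (j : ℕ) : ∀ y, AnalyticAt ℂ ((dir a)^[j] f) y := by
  induction j with
  | zero => simpa using hf
  | succ j ih =>
    rw [Function.iterate_succ_apply']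
    exact dir_an1 ih

theorem dir_lin (hf : ∀ y, AnalyticAt ℂ f y) (hg : ∀ y, AnalyticAt ℂ g y) (c : ℂ) (j : ℕ) :
    (dir a)^[j] (fun y => f y + c * g y) = fun y => (dir a)^[j] f y + c * (dir a)^[j] g y := by
  induction j with
  | zero => simp
  | succ j ih =>
    rw [Function.iterate_succ_apply', ih, Function.iterate_succ_apply', Function.iterate_succ_apply']
    funext y
    have h1 : DifferentiableAt ℂ ((dir a)^[j] f) y := (dir_an hf j y).differentiableAt
    have h2 : DifferentiableAt ℂ ((dir a)^[j] g) y := (dir_an hg j y).differentiableAt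
    have h3 := (h1.hasFDerivAt.add (h2.hasFDerivAt.const_mul c)).fderiv
    have h4 : fderiv ℂ (fun y => (dir a)^[j] f y + c * (dir a)^[j] g y) y = fderiv ℂ ((dir a)^[j] f) y + c • fderiv ℂ ((dir a)^[j] g) y := h3
    simp only [dir, h4]
    rfl

private lemma hasDeriv_line {F : Vd (k + 1) → ℂ} (hF : ∀ y, AnalyticAt ℂ F y) (y : Vd (k + 1)) (z : ℂ) : HasDerivAt (fun w : ℂ => F (y + w • a)) (dir a F (y + z • a)) z := by
  have h1 : HasFDerivAt F (fderiv ℂ F (y + z • a)) (y + z • a) := (hF _).differentiableAt.hasFDerivAt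
  have h2 : HasDerivAt (fun w : ℂ => y + w • a) a z := by
    have h3 : HasDerivAt (fun w : ℂ => w • a) ((1 : ℂ) • a) z := (hasDerivAt_id z).smul_const a
    rw [one_smul] at h3
    exact h3.const_add y
  exact h1.comp_hasDerivAt z h2

private lemma diff_line {F : Vd (k + 1) → ℂ} (hF : ∀ y, AnalyticAt ℂ F y) (y : Vd (k + 1)) : Differentiable ℂ (fun w : ℂ => F (y + w • a)) :=
  fun z => (hasDeriv_line hF y z).differentiableAt

theorem dir_line (hf : ∀ y, AnalyticAt ℂ f y) (j : ℕ) (y : Vd (k + 1)) (z : ℂ) : iteratedDeriv j (fun w : ℂ => f (y + w • a)) z = (dir a)^[j] f (y + z • a) := by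
  induction j generalizing z with
  | zero => simp
  | succ j ih =>
    rw [iteratedDeriv_succ, Function.iterate_succ_apply']
    have h1 : iteratedDeriv j (fun w : ℂ => f (y + w • a)) = fun w : ℂ => (dir a)^[j] f (y + w • a) := funext ih
    rw [h1]
    exact (hasDeriv_line (dir_an hf j) y z).deriv

private lemma iter_pow (z₀ : ℂ) (l : ℕ) : ∀ G : ℂ → ℂ, Differentiable ℂ G → iteratedDeriv l (fun z => (z - z₀) ^ l * G z) z₀ = (l.factorial : ℂ) * G z₀ := by
  induction l with
  | zero => intro G _; simp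
  | succ l ih =>
    intro G hG
    rw [iteratedDeriv_succ']
    have h1 : deriv (fun z => (z - z₀) ^ (l + 1) * G z) = fun z => (z - z₀) ^ l * (((l : ℂ) + 1) * G z + (z - z₀) * deriv G z) := by
      funext z
      have h2 : HasDerivAt (fun z : ℂ => (z - z₀) ^ (l + 1)) (((l + 1 : ℕ) : ℂ) * (z - z₀) ^ l * 1) z := by
        exact ((hasDerivAt_id z).sub_const z₀).pow (l + 1)
      have h3 := (h2.mul (hG z).hasDerivAt).deriv
      have h4 : deriv (fun z => (z - z₀) ^ (l + 1) * G z) z = ((l + 1 : ℕ) : ℂ) * (z - z₀) ^ l * 1 * G z + (z - z₀) ^ (l + 1) * deriv G z := h3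
      rw [h4]
      push_cast
      ring
    rw [h1, ih (fun z => ((l : ℂ) + 1) * G z + (z - z₀) * deriv G z)]
    · simp [Nat.factorial_succ]
      ring
    · have h5 : Differentiable ℂ (deriv G) := by
        intro z
        exact ((hG.analyticAt z).deriv).differentiableAt
      exact (hG.const_mul _).add (((differentiable_id).sub_const z₀).mul h5)

private lemma div_one {G : ℂ → ℂ} (hG : Differentiable ℂ G) {z₀ : ℂ} (h0 : G z₀ = 0) : ∃ g : ℂ → ℂ, Differentiable ℂ g ∧ ∀ z, G z = (z - z₀) * g z := by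
  refine ⟨dslope G z₀, ?_, fun z => ?_⟩
  · have h1 : DifferentiableOn ℂ (dslope G z₀) Set.univ := (Complex.differentiableOn_dslope Filter.univ_mem).2 hG.differentiableOn
    exact differentiableOn_univ.1 h1
  · have h2 := sub_smul_dslope G z₀ z
    rw [smul_eq_mul, h0, sub_zero] at h2
    exact h2.symm

private lemma div_pow {φ : ℂ → ℂ} (hφ : Differentiable ℂ φ) {z₀ : ℂ} (l : ℕ) (h : ∀ j < l, iteratedDeriv j φ z₀ = 0) : ∃ g : ℂ → ℂ, Differentiable ℂ g ∧ ∀ z, φ z = (z - z₀) ^ l * g z := by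
  induction l with
  | zero => exact ⟨φ, hφ, fun z => by simp⟩
  | succ l ih =>
    obtain ⟨g, hg, h1⟩ := ih fun j hj => h j (by omega)
    have h2 : φ = fun z => (z - z₀) ^ l * g z := funext h1
    have h3 := h l (by omega)
    rw [h2, iter_pow z₀ l g hg] at h3
    have h4 : g z₀ = 0 := by
      rcases mul_eq_zero.1 h3 with h5 | h5
      · exact absurd h5 (by exact_mod_cast Nat.factorial_ne_zero l)
      · exact h5
    obtain ⟨g', hg', h6⟩ := div_one hg h4
    refine ⟨g', hg', fun z => ?_⟩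
    rw [h1 z, h6 z]
    ring

/-- if the derivatives of order `< l` vanish at `y + z₀ a` then `z ↦ f (y + z a)` is divisible by `(z - z₀) ^ l` -/
theorem dir_zero (hf : ∀ y, AnalyticAt ℂ f y) {l : ℕ} {y : Vd (k + 1)} {z₀ : ℂ} (h : ∀ j < l, (dir a)^[j] f (y + z₀ • a) = 0) :
    ∃ g : ℂ → ℂ, Differentiable ℂ g ∧ ∀ z, f (y + z • a) = (z - z₀) ^ l * g z :=
  div_pow (diff_line hf y) l fun j hj => by rw [dir_line hf j y z₀]; exact h j hj

theorem dir_iter_per {h : Vd (k + 1) → ℂ} (hh : ∀ y, AnalyticAt ℂ h y) (hf : ∀ y, AnalyticAt ℂ f y) {v : Vd (k + 1)} (hper : ∀ y, h y * f (y + v) = f y) {j : ℕ} {y : Vd (k + 1)}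
    (h0 : ∀ i < j, (dir a)^[i] f (y + v) = 0) : h y * (dir a)^[j] f (y + v) = (dir a)^[j] f y := by
  obtain ⟨G, hG, h1⟩ := dir_zero (a := a) hf (l := j) (y := y + v) (z₀ := 0) (by simpa using h0)
  have h2 : (fun w : ℂ => f (y + v + w • a)) = fun w : ℂ => (w - 0) ^ j * G w := funext h1
  have h3 : (fun w : ℂ => f (y + w • a)) = fun w : ℂ => (w - 0) ^ j * (h (y + w • a) * G w) := by
    funext w
    rw [← hper (y + w • a)]
    have : y + w • a + v = y + v + w • a := by abel
    rw [this, h1 w]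
    ring
  have h4 := dir_line (a := a) hf j (y + v) 0
  have h5 := dir_line (a := a) hf j y 0
  rw [h2, iter_pow 0 j G hG] at h4
  rw [h3, iter_pow 0 j (fun w : ℂ => h (y + w • a) * G w) ((diff_line hh y).mul hG)] at h5
  simp only [zero_smul, add_zero] at h4 h5
  rw [← h4, ← h5]
  ring

end Pool.Agent.G4.H
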