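import Mathlib

/-!
# G4 H Jen: zeros of high order, Jensen

`φ` entire, `‖φ z‖ ≤ B exp (M (w₀ + 2 Re (c (z - z₁)) + q ‖z - z₁‖²))` (the weight on a line), `m₀ exp (M w₀) ≤ ‖φ z₁‖`, divisible by `(z - e) ^ l` for the `e` in the finite set `S ⊆ closedBall z₁ R`: then
`l * #S ≤ M q (e R)² + log (B / m₀)`, `e = exp 1` (Jensen for the radius `e R`; or the maximum principle for `φ z exp (- 2 M c (z - z₁)) / ∏ (z - e) ^ l` on the ball of radius `2 e R`…: any constant instead of `e²` is fine, here `16`).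
Proof by the maximum principle: `ψ` with `φ = ∏ (z - e) ^ l ψ` (`hdiv` gives the factorisation for one `e` at a time; `∏` by induction), on the circle `‖z - z₁‖ = 4 R`: `‖z - e‖ ≥ 3 R`, at `z₁`: `‖z₁ - e‖ ≤ R`; so
`‖φ z₁‖ ≤ R ^ (l #S) ‖ψ z₁‖ ≤ R ^ (l #S) (3 R) ^ (- l #S) B exp (M (w₀ + 16 q R²))`, `3 ≥ exp 1`.
-/

set_option autoImplicit false

open Topology Filter Metric

namespace Pool.Agent.G4.H

private theorem jen_div (a : ℂ) : ∀ (l : ℕ) (P g h : ℂ → ℂ), Differentiable ℂ P →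
    Differentiable ℂ g → Differentiable ℂ h → P a ≠ 0 →
    (∀ z, P z * g z = (z - a) ^ l * h z) →
    ∃ k : ℂ → ℂ, Differentiable ℂ k ∧ ∀ z, g z = (z - a) ^ l * k z
  | 0, _, g, _, _, hg, _, _, _ => ⟨g, hg, fun z => by simp⟩
  | l + 1, P, g, h, hP, hg, hh, hPa, hyp => by
    have hga : g a = 0 := by
      have := hyp a
      rw [sub_self, zero_pow (Nat.succ_ne_zero l), zero_mul] at this
      exact (mul_eq_zero.1 this).resolve_left hPa
    have hg1 : Differentiable ℂ (dslope g a) := by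
      have := (Complex.differentiableOn_dslope (s := Set.univ) (c := a)
        (Filter.univ_mem)).2 hg.differentiableOn
      exact differentiableOn_univ.1 this
    have hg2 : ∀ z, g z = (z - a) * dslope g a z := by
      intro z
      have := sub_smul_dslope g a z
      rw [smul_eq_mul, hga, sub_zero] at this
      exact this.symm
    have hne : ∀ z, z ≠ a → P z * dslope g a z = (z - a) ^ l * h z := by
      intro z hz
      have h1 := hyp z
      rw [hg2 z] at h1
      have h2 : z - a ≠ 0 := sub_ne_zero.2 hz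
      apply mul_left_cancel₀ h2
      linear_combination h1
    have hall : ∀ z, P z * dslope g a z = (z - a) ^ l * h z := by
      have hc1 : Continuous fun z => P z * dslope g a z := hP.continuous.mul hg1.continuous
      have hc2 : Continuous fun z => (z - a) ^ l * h z :=
        ((continuous_id.sub continuous_const).pow l).mul hh.continuous
      have : (fun z => P z * dslope g a z) = fun z => (z - a) ^ l * h z :=
        Continuous.ext_on (dense_compl_singleton a) hc1 hc2 fun z hz => hne z hz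
      intro z
      exact congrFun this z
    obtain ⟨k, hk1, hk2⟩ := jen_div a l P (dslope g a) h hP hg1 hh hPa hall
    refine ⟨k, hk1, fun z => ?_⟩
    rw [hg2 z, hk2 z]
    ring

private theorem jen_prod {φ : ℂ → ℂ} (hφ : Differentiable ℂ φ) {l : ℕ} (S : Finset ℂ)
    (hdiv : ∀ e ∈ S, ∃ g : ℂ → ℂ, Differentiable ℂ g ∧ ∀ z, φ z = (z - e) ^ l * g z) :
    ∃ g : ℂ → ℂ, Differentiable ℂ g ∧ ∀ z, φ z = (∏ e ∈ S, (z - e) ^ l) * g z := by
  classical
  induction S using Finset.induction_on with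
  | empty => exact ⟨φ, hφ, fun z => by simp⟩
  | insert a S ha ih =>
    obtain ⟨g, hg, hg1⟩ := ih fun e he => hdiv e (Finset.mem_insert_of_mem he)
    obtain ⟨h, hh, hh1⟩ := hdiv a (Finset.mem_insert_self a S)
    have hP : Differentiable ℂ fun z : ℂ => ∏ e ∈ S, (z - e) ^ l := by
      fun_prop
    have hPa : (∏ e ∈ S, (a - e) ^ l) ≠ 0 := by
      rw [Finset.prod_ne_zero_iff]
      intro e he
      exact pow_ne_zero _ (sub_ne_zero.2 fun h => ha (h ▸ he))
    obtain ⟨k, hk1, hk2⟩ := jen_div a l (fun z => ∏ e ∈ S, (z - e) ^ l) g h hP hg hh hPa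
      (fun z => by rw [← hg1 z, hh1 z])
    refine ⟨k, hk1, fun z => ?_⟩
    rw [hg1 z, hk2 z, Finset.prod_insert ha]
    ring

theorem jen {φ : ℂ → ℂ} (hφ : Differentiable ℂ φ) {B M w₀ q m₀ R : ℝ} {c z₁ : ℂ} (hR : 0 < R) (hm₀ : 0 < m₀)
    (hB : ∀ z, ‖φ z‖ ≤ B * Real.exp (M * (w₀ + 2 * (c * (z - z₁)).re + q * ‖z - z₁‖ ^ 2))) (h1 : m₀ * Real.exp (M * w₀) ≤ ‖φ z₁‖) {S : Finset ℂ} {l : ℕ} (hS : ∀ e ∈ S, ‖e - z₁‖ ≤ R)
    (hdiv : ∀ e ∈ S, ∃ g : ℂ → ℂ, Differentiable ℂ g ∧ ∀ z, φ z = (z - e) ^ l * g z) : (l : ℝ) * S.card ≤ 16 * M * q * R ^ 2 + Real.log (B / m₀) := by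
  obtain ⟨g, hg, hg1⟩ := jen_prod hφ S hdiv
  set N := S.card with hN
  set C : ℝ := B * Real.exp (M * (w₀ + q * (4 * R) ^ 2)) / ((3 * R) ^ l) ^ N with hC
  have h3 : 0 < ((3 * R) ^ l) ^ N := by positivity
  have hmax : ‖g z₁ * Complex.exp (-(2 * M * (c * (z₁ - z₁))))‖ ≤ C := by
    refine Complex.norm_le_of_forall_mem_frontier_norm_le (U := ball z₁ (4 * R))
      (f := fun z => g z * Complex.exp (-(2 * M * (c * (z - z₁))))) isBounded_ball ?_ ?_ ?_
    · refine Differentiable.diffContOnCl ?_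
      fun_prop
    · intro z hz
      rw [frontier_ball _ (by positivity : (4 * R) ≠ 0), mem_sphere, dist_eq_norm] at hz
      have h4 : ((3 * R) ^ l) ^ N ≤ ‖∏ e ∈ S, (z - e) ^ l‖ := by
        rw [norm_prod, hN, ← Finset.prod_const]
        refine Finset.prod_le_prod (fun _ _ => by positivity) fun e he => ?_
        rw [norm_pow]
        refine pow_le_pow_left₀ (by positivity) ?_ l
        have h5 : ‖z - z₁‖ ≤ ‖z - e‖ + ‖e - z₁‖ := by
          have := norm_add_le (z - e) (e - z₁)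
          rwa [sub_add_sub_cancel] at this
        have := hS e he
        linarith
      have h6 : ‖g z * Complex.exp (-(2 * M * (c * (z - z₁))))‖ * ‖∏ e ∈ S, (z - e) ^ l‖ ≤
          B * Real.exp (M * (w₀ + q * (4 * R) ^ 2)) := by
        have h7 : ‖g z * Complex.exp (-(2 * M * (c * (z - z₁))))‖ * ‖∏ e ∈ S, (z - e) ^ l‖ =
            ‖φ z‖ * Real.exp (-(2 * M * (c * (z - z₁)).re)) := by
          rw [hg1 z, norm_mul, norm_mul, Complex.norm_exp]
          have h8 : (-(2 * (M : ℂ) * (c * (z - z₁)))).re = -(2 * M * (c * (z - z₁)).re) := by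
            have : (2 * (M : ℂ) * (c * (z - z₁))) = ((2 * M : ℝ) : ℂ) * (c * (z - z₁)) := by
              push_cast
              ring
            rw [this, Complex.neg_re, Complex.re_ofReal_mul]
          rw [h8]
          ring
        rw [h7]
        calc ‖φ z‖ * Real.exp (-(2 * M * (c * (z - z₁)).re))
            ≤ B * Real.exp (M * (w₀ + 2 * (c * (z - z₁)).re + q * ‖z - z₁‖ ^ 2)) *
              Real.exp (-(2 * M * (c * (z - z₁)).re)) :=
              mul_le_mul_of_nonneg_right (hB z) (Real.exp_pos _).le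
          _ = B * Real.exp (M * (w₀ + q * (4 * R) ^ 2)) := by
              rw [mul_assoc, ← Real.exp_add, hz]
              congr 2
              ring
      show ‖g z * Complex.exp (-(2 * M * (c * (z - z₁))))‖ ≤ C
      rw [hC, le_div_iff₀ h3]
      exact (mul_le_mul_of_nonneg_left h4 (norm_nonneg _)).trans h6
    · exact subset_closure (mem_ball_self (by positivity))
  rw [sub_self, mul_zero, mul_zero, neg_zero, Complex.exp_zero, mul_one] at hmax
  have h9 : ‖φ z₁‖ ≤ (R ^ l) ^ N * C := by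
    rw [hg1 z₁, norm_mul]
    refine mul_le_mul ?_ hmax (norm_nonneg _) (by positivity)
    rw [norm_prod, hN, ← Finset.prod_const]
    refine Finset.prod_le_prod (fun _ _ => norm_nonneg _) fun e he => ?_
    rw [norm_pow]
    refine pow_le_pow_left₀ (norm_nonneg _) ?_ l
    rw [norm_sub_rev]
    exact hS e he
  have h10 : (R ^ l) ^ N * C =
      B * Real.exp (M * (w₀ + q * (4 * R) ^ 2)) / ((3 : ℝ) ^ l) ^ N := by
    rw [hC, mul_pow 3 R l, mul_pow ((3 : ℝ) ^ l) (R ^ l) N]
    have : (R ^ l) ^ N ≠ 0 := by positivity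
    field_simp
  have h11 : m₀ * Real.exp (M * w₀) * ((3 : ℝ) ^ l) ^ N ≤
      B * Real.exp (M * (w₀ + q * (4 * R) ^ 2)) := by
    rw [← le_div_iff₀ (by positivity), ← h10]
    exact h1.trans h9
  have h12 : Real.exp (M * (w₀ + q * (4 * R) ^ 2)) =
      Real.exp (M * w₀) * Real.exp (16 * M * q * R ^ 2) := by
    rw [← Real.exp_add]
    congr 1
    ring
  rw [h12] at h11
  have h13 : ((3 : ℝ) ^ l) ^ N * m₀ ≤ B * Real.exp (16 * M * q * R ^ 2) := by
    have h14 : 0 < Real.exp (M * w₀) := Real.exp_pos _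
    refine le_of_mul_le_mul_left ?_ h14
    linarith
  have hBpos : 0 < B := by
    have : 0 < B * Real.exp (16 * M * q * R ^ 2) := lt_of_lt_of_le (by positivity) h13
    exact (mul_pos_iff_of_pos_right (Real.exp_pos _)).1 this
  have h15 : Real.log (((3 : ℝ) ^ l) ^ N) ≤ 16 * M * q * R ^ 2 + Real.log (B / m₀) := by
    have h16 : ((3 : ℝ) ^ l) ^ N ≤ Real.exp (16 * M * q * R ^ 2) * (B / m₀) := by
      rw [← mul_div_assoc, le_div_iff₀ hm₀]
      linarith
    have h17 := Real.log_le_log (by positivity) h16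
    rwa [Real.log_mul (Real.exp_pos _).ne' (div_pos hBpos hm₀).ne', Real.log_exp] at h17
  rw [← pow_mul, Real.log_pow] at h15
  have h18 : (1 : ℝ) ≤ Real.log 3 := by
    rw [Real.le_log_iff_exp_le (by norm_num)]
    exact (Real.exp_one_lt_d9.trans (by norm_num)).le
  have h19 : (0 : ℝ) ≤ ((l * N : ℕ) : ℝ) := Nat.cast_nonneg _
  have h20 : ((l * N : ℕ) : ℝ) ≤ ((l * N : ℕ) : ℝ) * Real.log 3 := by nlinarith
  push_cast at h15 h20
  linarith

end Pool.Agent.G4.H
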