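import Pool.Agent.G4.H.Bas

/-!
# G4 H Lb: lower and upper bounds of a theta function on the lines

`f ≠ 0` a theta function of weight `M wt W`: `{f = 0}` is analytic, invariant under `m Λ` (`lv_mul`, `ThM.per`, the factors are not `0`), so it contains no line (`G4.no_line` with `D = ∅`).  The functions `‖f y‖ exp (- M wt y)` and
`y ↦ max over ‖z‖ ≤ 1 of ‖f (y + z a)‖ exp (- M wt (y + z a))` are continuous (or: lower semicontinuous) and invariant under the `lv b c`, so bounded above, resp. below by a positive constant (`lv_red`).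
-/

set_option autoImplicit false

open Topology Filter Metric

namespace Pool.Agent.G4.H

open Pool.Agent.AD (Vd)
open Pool.Agent.TG (Lat)
open Pool.Agent.G3 (wt)

variable {k r : ℕ} {Λ Γ : AddSubgroup (Vd (k + 1))} {W : Fin r → Vd (k + 1) →L[ℂ] ℂ} {e : Vd (k + 1) → Vd (k + 1) → ℂ} {b : RB k} {M : ℕ} {f : Vd (k + 1) → ℂ}

theorem thm_norm (T : ThF Γ W e) (hb : ∀ i, b i ∈ Γ) (hf : ThM b e M f) (c : Fin (2 * (k + 1)) → ℤ) (y : Vd (k + 1)) :
    ‖f (y + lv b c)‖ * Real.exp (-(M * wt W (y + lv b c))) = ‖f y‖ * Real.exp (-(M * wt W y)) := by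
  have h1 := hf.per c y
  have h2 := T.nrm (lv b c) (lv_mem hb c) y
  rw [← h1, norm_mul, norm_pow, h2, ← Real.exp_nat_mul]
  have h3 : Real.exp (-(M * wt W (y + lv b c))) =
      Real.exp (M * (wt W y - wt W (y + lv b c))) * Real.exp (-(M * wt W y)) := by
    rw [← Real.exp_add]
    congr 1
    ring
  rw [h3]
  ring

/-- the weight is continuous -/
private theorem wt_cont (W : Fin r → Vd (k + 1) →L[ℂ] ℂ) : Continuous fun y : Vd (k + 1) => wt W y := by
  unfold wt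
  exact continuous_finsetSum _ fun i _ => ((W i).continuous.norm).pow 2

/-- the invariant function is continuous -/
private theorem g_cont (hf : ThM b e M f) : Continuous fun y : Vd (k + 1) => ‖f y‖ * Real.exp (-(M * wt W y)) := by
  have h1 : Continuous f := continuous_iff_continuousAt.2 fun y => (hf.an y).continuousAt
  exact h1.norm.mul (Real.continuous_exp.comp (continuous_const.mul (wt_cont W)).neg)

theorem thm_up (T : ThF Γ W e) (hb : ∀ i, b i ∈ Γ) (hf : ThM b e M f) : ∃ B : ℝ, 0 < B ∧ ∀ y, ‖f y‖ ≤ B * Real.exp (M * wt W y) := by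
  obtain ⟨R, hR, hred⟩ := lv_red b
  obtain ⟨B, hB⟩ := (isCompact_closedBall (0 : Vd (k + 1)) R).exists_bound_of_continuousOn
    (g_cont (W := W) hf).continuousOn
  refine ⟨max B 1, lt_max_of_lt_right one_pos, fun y => ?_⟩
  obtain ⟨c, hc⟩ := hred y
  have h1 := thm_norm T hb hf c (y - lv b c)
  rw [sub_add_cancel] at h1
  have h2 := hB (y - lv b c) (by rwa [mem_closedBall_zero_iff])
  rw [Real.norm_of_nonneg (by positivity), ← h1] at h2
  have h3 : ‖f y‖ = ‖f y‖ * Real.exp (-(M * wt W y)) * Real.exp (M * wt W y) := by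
    rw [mul_assoc, ← Real.exp_add, neg_add_cancel, Real.exp_zero, mul_one]
  rw [h3]
  exact mul_le_mul_of_nonneg_right (h2.trans (le_max_left _ _)) (Real.exp_pos _).le

/-- the theta function does not vanish on a disc of a line -/
private theorem ex_ne (T : ThF Γ W e) (hb : ∀ i, b i ∈ Γ) (hΛ : Lat Λ) (hs : Simp Λ) (hle : Γ ≤ Λ) (hf : ThM b e M f) (h0 : ∃ y, f y ≠ 0) {a : Vd (k + 1)}
    (ha : a ≠ 0) (y : Vd (k + 1)) : ∃ z : ℂ, ‖z‖ ≤ 1 ∧ f (y + z • a) ≠ 0 := by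
  by_contra hcon
  push Not at hcon
  have han : AnalyticOnNhd ℂ (fun z : ℂ => f (y + z • a)) Set.univ := by
    intro z _
    have h1 : AnalyticAt ℂ (fun z : ℂ => y + z • a) z := by fun_prop
    exact AnalyticAt.fun_comp (g := f) (f := fun z : ℂ => y + z • a) (hf.an _) h1
  have hz : ∀ z : ℂ, f (y + z • a) = 0 := by
    have h1 : ∀ᶠ z in 𝓝 (0 : ℂ), f (y + z • a) = 0 := by
      filter_upwards [ball_mem_nhds (0 : ℂ) one_pos] with z hz
      exact hcon z (mem_ball_zero_iff.1 hz).le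
    have h2 := han.eqOn_zero_of_preconnected_of_eventuallyEq_zero isPreconnected_univ (Set.mem_univ (0 : ℂ)) h1
    exact fun z => h2 (Set.mem_univ z)
  obtain ⟨m, hm, hmul⟩ := lv_mul hΛ (b := b) fun i => hle (hb i)
  obtain ⟨y₀, hy₀⟩ := h0
  refine hy₀ ?_
  have h3 := no_line (D := ∅) (Z := {y | f y = 0}) hΛ hs isClosed_empty (fun y hy => absurd hy (Set.notMem_empty y))
    (fun a _ b z => Eventually.of_forall fun w => Set.notMem_empty _) ?_ hm ?_ ha (a := a) (b := y) ?_ y₀ (Set.notMem_empty y₀)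
  · exact h3
  · intro x _
    refine ⟨1, fun z _ => f z, ?_, Eventually.of_forall fun z => ?_⟩
    · exact AnalyticAt.pi fun _ => hf.an x
    · constructor
      · intro h
        funext i
        exact h
      · intro h
        exact congrFun h 0
  · intro x hx l hl
    obtain ⟨c, hc⟩ := hmul l hl
    have h4 := thm_norm T hb hf c x
    have hx' : f x = 0 := hx
    rw [hx', norm_zero, zero_mul] at h4
    show f (x + m • l) = 0
    rw [hc]
    exact norm_eq_zero.1 ((mul_eq_zero.1 h4).resolve_right (Real.exp_pos _).ne')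
  · intro z
    right
    show f (z • a + y) = 0
    rw [add_comm]
    exact hz z

theorem thm_low (T : ThF Γ W e) (hb : ∀ i, b i ∈ Γ) (hΛ : Lat Λ) (hs : Simp Λ) (hle : Γ ≤ Λ) (hf : ThM b e M f) (h0 : ∃ y, f y ≠ 0) {a : Vd (k + 1)} (ha : a ≠ 0) :
    ∃ m₀ : ℝ, 0 < m₀ ∧ ∀ y, ∃ z₁ : ℂ, ‖z₁‖ ≤ 1 ∧ m₀ * Real.exp (M * wt W (y + z₁ • a)) ≤ ‖f (y + z₁ • a)‖ := by
  obtain ⟨R, hR, hred⟩ := lv_red b
  have hcpt := isCompact_closedBall (0 : Vd (k + 1)) R
  have hg := g_cont (W := W) hf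
  have h1 : ∃ m₀ : ℝ, 0 < m₀ ∧ ∀ y ∈ closedBall (0 : Vd (k + 1)) R, ∃ z₁ : ℂ, ‖z₁‖ ≤ 1 ∧
      m₀ ≤ ‖f (y + z₁ • a)‖ * Real.exp (-(M * wt W (y + z₁ • a))) := by
    refine hcpt.induction_on (p := fun s => ∃ m₀ : ℝ, 0 < m₀ ∧ ∀ y ∈ s, ∃ z₁ : ℂ, ‖z₁‖ ≤ 1 ∧
      m₀ ≤ ‖f (y + z₁ • a)‖ * Real.exp (-(M * wt W (y + z₁ • a)))) ?_ ?_ ?_ ?_
    · exact ⟨1, one_pos, fun y hy => absurd hy (Set.notMem_empty y)⟩
    · rintro s t hst ⟨m₀, hm, h⟩
      exact ⟨m₀, hm, fun y hy => h y (hst hy)⟩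
    · rintro s t ⟨m₀, hm, h⟩ ⟨m₁, hm', h'⟩
      refine ⟨min m₀ m₁, lt_min hm hm', ?_⟩
      rintro y (hy | hy)
      · obtain ⟨z, hz, h2⟩ := h y hy
        exact ⟨z, hz, (min_le_left _ _).trans h2⟩
      · obtain ⟨z, hz, h2⟩ := h' y hy
        exact ⟨z, hz, (min_le_right _ _).trans h2⟩
    · intro y _
      obtain ⟨z, hz, h2⟩ := ex_ne T hb hΛ hs hle hf h0 ha y
      have h3 : 0 < ‖f (y + z • a)‖ * Real.exp (-(M * wt W (y + z • a))) :=
        mul_pos (norm_pos_iff.2 h2) (Real.exp_pos _)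
      have h4 : Continuous fun y : Vd (k + 1) => ‖f (y + z • a)‖ * Real.exp (-(M * wt W (y + z • a))) :=
        hg.comp (continuous_id.add continuous_const)
      have h5 := h4.continuousAt.eventually_const_lt (half_lt_self h3)
      refine ⟨{y' | ‖f (y + z • a)‖ * Real.exp (-(M * wt W (y + z • a))) / 2 <
        ‖f (y' + z • a)‖ * Real.exp (-(M * wt W (y' + z • a)))}, mem_nhdsWithin_of_mem_nhds h5, _, half_pos h3, ?_⟩
      intro y' hy'
      exact ⟨z, hz, le_of_lt hy'⟩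
  obtain ⟨m₀, hm, h⟩ := h1
  refine ⟨m₀, hm, fun y => ?_⟩
  obtain ⟨c, hc⟩ := hred y
  obtain ⟨z, hz, h2⟩ := h (y - lv b c) (by rwa [mem_closedBall_zero_iff])
  refine ⟨z, hz, ?_⟩
  have h3 := thm_norm T hb hf c (y - lv b c + z • a)
  have h4 : y - lv b c + z • a + lv b c = y + z • a := by abel
  rw [h4] at h3
  rw [← h3] at h2
  have h5 := mul_le_mul_of_nonneg_right h2 (Real.exp_pos (M * wt W (y + z • a))).le
  rwa [mul_assoc (‖f (y + z • a)‖), ← Real.exp_add, neg_add_cancel, Real.exp_zero, mul_one] at h5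

/-- the weight on a line -/
theorem wt_line (W : Fin r → Vd (k + 1) →L[ℂ] ℂ) (y a : Vd (k + 1)) (z₁ : ℂ) :
    ∃ c : ℂ, ∀ z : ℂ, wt W (y + z • a) = wt W (y + z₁ • a) + 2 * (c * (z - z₁)).re + wt W a * ‖z - z₁‖ ^ 2 := by
  refine ⟨∑ i, (starRingEnd ℂ) (W i (y + z₁ • a)) * W i a, fun z => ?_⟩
  unfold wt
  have h1 : ∀ A B t : ℂ, ‖A + t * B‖ ^ 2 = ‖A‖ ^ 2 + 2 * ((starRingEnd ℂ) A * B * t).re + ‖B‖ ^ 2 * ‖t‖ ^ 2 := by
    intro A B t
    rw [← Complex.normSq_eq_norm_sq, ← Complex.normSq_eq_norm_sq, ← Complex.normSq_eq_norm_sq, ← Complex.normSq_eq_norm_sq]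
    simp only [Complex.normSq_apply, Complex.add_re, Complex.add_im, Complex.mul_re, Complex.mul_im, Complex.conj_re, Complex.conj_im]
    ring
  have h2 : ∀ i, ‖W i (y + z • a)‖ ^ 2 = ‖W i (y + z₁ • a)‖ ^ 2 + 2 * ((starRingEnd ℂ) (W i (y + z₁ • a)) * W i a * (z - z₁)).re +
      ‖W i a‖ ^ 2 * ‖z - z₁‖ ^ 2 := by
    intro i
    rw [← h1]
    congr 2
    have h3 : y + z • a = (y + z₁ • a) + (z - z₁) • a := by
      rw [sub_smul]
      abel
    rw [h3, map_add, map_smul, smul_eq_mul]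
  have h3 : ((∑ i, (starRingEnd ℂ) (W i (y + z₁ • a)) * W i a) * (z - z₁)).re = ∑ i, ((starRingEnd ℂ) (W i (y + z₁ • a)) * W i a * (z - z₁)).re := by
    rw [Finset.sum_mul, Complex.re_sum]
  rw [Finset.sum_congr rfl fun i _ => h2 i, Finset.sum_add_distrib, Finset.sum_add_distrib, ← Finset.sum_mul, ← Finset.mul_sum, h3]

end Pool.Agent.G4.H
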