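import Mathlib

/-!
# G4 H Sch: the Schwarz lemma for polydiscs, with `T ^ d` linear conditions

Induction on `d`.  `d = 0`: `Φ G = G 0`.  `d + 1`: coordinates `(w, z')` (`Fin.cons w z'`), `G (w, z') = ∑ m, G_m z' w ^ m` with the Cauchy coefficients `G_m z' = (1 / m!) iteratedDeriv m (fun w => G (Fin.cons w z')) 0` (holomorphic in `z'`; or a
circle integral over `‖w‖ = r`), `‖G_m z'‖ ≤ B (4 / 3) ^ m` if `‖G‖ ≤ B` on the polydisc of radius `3 / 4`.  Conditions: those of dimension `d` for `G_m`, `m < T`.  Then on the polydisc of radius `1 / 2`: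
`‖G‖ ≤ ∑_{m < T} B (4 / 3) ^ m C_d (3 / 4) ^ T (1 / 2) ^ m + ∑_{m ≥ T} B (4 / 3) ^ m (1 / 2) ^ m ≤ 3 B C_d (3 / 4) ^ T + 3 B (2 / 3) ^ T`.
-/

set_option autoImplicit false

open Topology Filter Metric

namespace Pool.Agent.G4.H

/-- the partial derivative with respect to the first coordinate -/
private noncomputable def Sch_D {d : ℕ} (G : (Fin (d + 1) → ℂ) → ℂ) (z : Fin (d + 1) → ℂ) : ℂ :=
  fderiv ℂ G z (Pi.single 0 1)

private theorem Sch_D_an {d : ℕ} {G : (Fin (d + 1) → ℂ) → ℂ}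
    (hG : AnalyticOnNhd ℂ G (ball 0 1)) : AnalyticOnNhd ℂ (Sch_D G) (ball 0 1) := by
  intro z hz
  exact ((ContinuousLinearMap.apply ℂ ℂ (Pi.single 0 1 : Fin (d + 1) → ℂ)).analyticAt _).comp
    (hG.fderiv z hz)

private theorem Sch_iter_an {d : ℕ} {G : (Fin (d + 1) → ℂ) → ℂ}
    (hG : AnalyticOnNhd ℂ G (ball 0 1)) (m : ℕ) : AnalyticOnNhd ℂ (Sch_D^[m] G) (ball 0 1) := by
  induction m with
  | zero => exact hG
  | succ m ih =>
    rw [Function.iterate_succ_apply']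
    exact Sch_D_an ih

private theorem Sch_iter_add {d : ℕ} {G G' : (Fin (d + 1) → ℂ) → ℂ} (c : ℂ)
    (hG : AnalyticOnNhd ℂ G (ball 0 1)) (hG' : AnalyticOnNhd ℂ G' (ball 0 1)) (m : ℕ) :
    ∀ z ∈ ball (0 : Fin (d + 1) → ℂ) 1, (Sch_D^[m] fun z => G z + c * G' z) z =
      (Sch_D^[m] G) z + c * (Sch_D^[m] G') z := by
  induction m with
  | zero => exact fun z _ => rfl
  | succ m ih =>
    intro z hz
    rw [Function.iterate_succ_apply', Function.iterate_succ_apply', Function.iterate_succ_apply']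
    have h1 : (Sch_D^[m] fun z => G z + c * G' z) =ᶠ[𝓝 z]
        fun z => (Sch_D^[m] G) z + c * (Sch_D^[m] G') z :=
      Filter.eventually_of_mem (isOpen_ball.mem_nhds hz) ih
    have h2 := (Sch_iter_an hG m z hz).differentiableAt
    have h3 := (Sch_iter_an hG' m z hz).differentiableAt
    show fderiv ℂ (Sch_D^[m] fun z => G z + c * G' z) z (Pi.single 0 1) =
      fderiv ℂ (Sch_D^[m] G) z (Pi.single 0 1) + c * fderiv ℂ (Sch_D^[m] G') z (Pi.single 0 1)
    rw [h1.fderiv_eq, fderiv_fun_add h2 (h3.const_mul c), fderiv_const_mul h3]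
    rfl

private theorem Sch_cons {d : ℕ} {r : ℝ} (hr : 0 < r) {w : ℂ} {z : Fin d → ℂ}
    (hw : ‖w‖ < r) (hz : z ∈ ball (0 : Fin d → ℂ) r) :
    (Fin.cons (α := fun _ => ℂ) w z : Fin (d + 1) → ℂ) ∈ ball (0 : Fin (d + 1) → ℂ) r := by
  rw [mem_ball_zero_iff, pi_norm_lt_iff hr]
  rw [mem_ball_zero_iff, pi_norm_lt_iff hr] at hz
  intro i
  refine Fin.cases ?_ (fun j => ?_) i
  · exact hw
  · exact hz j

private theorem Sch_deriv {d : ℕ} {H : (Fin (d + 1) → ℂ) → ℂ}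
    (hH : AnalyticOnNhd ℂ H (ball 0 1)) {w : ℂ} (hw : ‖w‖ < 1) {z : Fin d → ℂ}
    (hz : z ∈ ball (0 : Fin d → ℂ) 1) :
    HasDerivAt (fun w => H (Fin.cons (α := fun _ => ℂ) w z))
      (Sch_D H (Fin.cons (α := fun _ => ℂ) w z)) w := by
  have h1 : HasDerivAt (fun w : ℂ => (Fin.cons (α := fun _ => ℂ) w z : Fin (d + 1) → ℂ))
      (Pi.single 0 1) w := by
    rw [hasDerivAt_pi]
    intro i
    refine Fin.cases ?_ (fun j => ?_) i
    · simp only [Fin.cons_zero, Pi.single_eq_same]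
      exact hasDerivAt_id' w
    · simp only [Fin.cons_succ]
      rw [Pi.single_eq_of_ne (Fin.succ_ne_zero j)]
      exact hasDerivAt_const w (z j)
  exact (hH _ (Sch_cons one_pos hw hz)).differentiableAt.hasFDerivAt.comp_hasDerivAt w h1

private theorem Sch_iterated {d : ℕ} {G : (Fin (d + 1) → ℂ) → ℂ}
    (hG : AnalyticOnNhd ℂ G (ball 0 1)) {z : Fin d → ℂ} (hz : z ∈ ball (0 : Fin d → ℂ) 1)
    (m : ℕ) : ∀ w : ℂ, ‖w‖ < 1 →
      iteratedDeriv m (fun w => G (Fin.cons (α := fun _ => ℂ) w z)) w =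
        (Sch_D^[m] G) (Fin.cons (α := fun _ => ℂ) w z) := by
  induction m with
  | zero =>
    intro w _
    rw [iteratedDeriv_zero]
    rfl
  | succ m ih =>
    intro w hw
    rw [iteratedDeriv_succ, Function.iterate_succ_apply']
    have h1 : iteratedDeriv m (fun w => G (Fin.cons (α := fun _ => ℂ) w z)) =ᶠ[𝓝 w]
        fun w => (Sch_D^[m] G) (Fin.cons (α := fun _ => ℂ) w z) := by
      refine Filter.eventually_of_mem (isOpen_ball.mem_nhds (mem_ball_zero_iff.2 hw)) ?_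
      intro w' hw'
      exact ih w' (mem_ball_zero_iff.1 hw')
    rw [h1.deriv_eq]
    exact (Sch_deriv (Sch_iter_an hG m) hw hz).deriv

open Classical in
/-- the Taylor coefficients with respect to the first coordinate -/
private noncomputable def Sch_co {d : ℕ} (m : ℕ) (G : (Fin (d + 1) → ℂ) → ℂ) (z : Fin d → ℂ) : ℂ :=
  if z ∈ ball (0 : Fin d → ℂ) 1 then
    ((m.factorial : ℂ))⁻¹ * (Sch_D^[m] G) (Fin.cons (α := fun _ => ℂ) 0 z)
  else 0

private theorem Sch_co_pos {d : ℕ} (m : ℕ) (G : (Fin (d + 1) → ℂ) → ℂ) {z : Fin d → ℂ}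
    (hz : z ∈ ball (0 : Fin d → ℂ) 1) :
    Sch_co m G z = ((m.factorial : ℂ))⁻¹ * (Sch_D^[m] G) (Fin.cons (α := fun _ => ℂ) 0 z) :=
  if_pos hz

private theorem Sch_co_an {d : ℕ} (m : ℕ) {G : (Fin (d + 1) → ℂ) → ℂ}
    (hG : AnalyticOnNhd ℂ G (ball 0 1)) : AnalyticOnNhd ℂ (Sch_co m G) (ball 0 1) := by
  obtain ⟨L, hL⟩ : ∃ L : (Fin d → ℂ) →L[ℂ] (Fin (d + 1) → ℂ),
      ∀ z, L z = Fin.cons (α := fun _ => ℂ) 0 z := by
    refine ⟨LinearMap.toContinuousLinearMap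
      { toFun := fun z => Fin.cons (α := fun _ => ℂ) 0 z
        map_add' := fun a b => ?_
        map_smul' := fun c a => ?_ }, fun z => rfl⟩
    · funext i
      refine Fin.cases ?_ (fun j => ?_) i
      · simp
      · simp
    · funext i
      refine Fin.cases ?_ (fun j => ?_) i
      · simp
      · simp
  intro z hz
  have h0 : ‖(0 : ℂ)‖ < 1 := by rw [norm_zero]; exact one_pos
  have h1 : AnalyticAt ℂ (fun z => (Sch_D^[m] G) (L z)) z := by
    refine AnalyticAt.fun_comp (g := Sch_D^[m] G) (f := L) ?_ (L.analyticAt z)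
    rw [hL]
    exact Sch_iter_an hG m _ (Sch_cons one_pos h0 hz)
  refine (analyticAt_const.mul h1 : AnalyticAt ℂ
    (fun z => ((m.factorial : ℂ))⁻¹ * (Sch_D^[m] G) (L z)) z).congr ?_
  refine Filter.eventually_of_mem (isOpen_ball.mem_nhds hz) fun z' hz' => ?_
  show ((m.factorial : ℂ))⁻¹ * (Sch_D^[m] G) (L z') = Sch_co m G z'
  rw [Sch_co_pos m G hz', hL]

private theorem Sch_co_add {d : ℕ} (m : ℕ) {G G' : (Fin (d + 1) → ℂ) → ℂ} (c : ℂ)
    (hG : AnalyticOnNhd ℂ G (ball 0 1)) (hG' : AnalyticOnNhd ℂ G' (ball 0 1)) :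
    Sch_co m (fun z => G z + c * G' z) = fun z => Sch_co m G z + c * Sch_co m G' z := by
  funext z
  by_cases hz : z ∈ ball (0 : Fin d → ℂ) 1
  · have h0 : ‖(0 : ℂ)‖ < 1 := by rw [norm_zero]; exact one_pos
    rw [Sch_co_pos m _ hz, Sch_co_pos m _ hz, Sch_co_pos m _ hz,
      Sch_iter_add c hG hG' m _ (Sch_cons one_pos h0 hz)]
    ring
  · simp only [Sch_co, if_neg hz]
    ring

private theorem Sch_diff {d : ℕ} {G : (Fin (d + 1) → ℂ) → ℂ}
    (hG : AnalyticOnNhd ℂ G (ball 0 1)) {z : Fin d → ℂ} (hz : z ∈ ball (0 : Fin d → ℂ) 1) :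
    DifferentiableOn ℂ (fun w => G (Fin.cons (α := fun _ => ℂ) w z)) (ball 0 1) := by
  intro w hw
  exact (Sch_deriv hG (mem_ball_zero_iff.1 hw) hz).differentiableAt.differentiableWithinAt

private theorem Sch_sum {d : ℕ} {G : (Fin (d + 1) → ℂ) → ℂ}
    (hG : AnalyticOnNhd ℂ G (ball 0 1)) {z : Fin d → ℂ} (hz : z ∈ ball (0 : Fin d → ℂ) 1)
    {w : ℂ} (hw : ‖w‖ < 1) :
    HasSum (fun m => Sch_co m G z * w ^ m) (G (Fin.cons (α := fun _ => ℂ) w z)) := by
  have h0 : ‖(0 : ℂ)‖ < 1 := by rw [norm_zero]; exact one_pos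
  have h1 := Complex.hasSum_taylorSeries_on_ball (Sch_diff hG hz) (mem_ball_zero_iff.2 hw)
  have h2 : (fun m => Sch_co m G z * w ^ m) = fun n => ((n.factorial : ℂ))⁻¹ • (w - 0) ^ n •
      iteratedDeriv n (fun w => G (Fin.cons (α := fun _ => ℂ) w z)) 0 := by
    funext n
    rw [Sch_co_pos n G hz, Sch_iterated hG hz n 0 h0, sub_zero, smul_eq_mul, smul_eq_mul]
    ring
  rw [h2]
  exact h1

private theorem Sch_bound {d : ℕ} {G : (Fin (d + 1) → ℂ) → ℂ} {B : ℝ}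
    (hG : AnalyticOnNhd ℂ G (ball 0 1))
    (hB : ∀ z ∈ ball (0 : Fin (d + 1) → ℂ) (3 / 4), ‖G z‖ ≤ B) {z : Fin d → ℂ}
    (hz : z ∈ ball (0 : Fin d → ℂ) (3 / 4)) (m : ℕ) : ‖Sch_co m G z‖ ≤ B * (4 / 3) ^ m := by
  have h34 : (0 : ℝ) < 3 / 4 := by norm_num
  have hz1 : z ∈ ball (0 : Fin d → ℂ) 1 := ball_subset_ball (by norm_num) hz
  have h0 : ‖(0 : ℂ)‖ < 1 := by rw [norm_zero]; exact one_pos
  have hd := Sch_diff hG hz1
  have hsub : closedBall (0 : ℂ) (3 / 4) ⊆ ball 0 1 := closedBall_subset_ball (by norm_num)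
  have hcl : closure (ball (0 : ℂ) (3 / 4)) = closedBall 0 (3 / 4) := closure_ball _ h34.ne'
  have hdc : DiffContOnCl ℂ (fun w => G (Fin.cons (α := fun _ => ℂ) w z)) (ball 0 (3 / 4)) := by
    refine DifferentiableOn.diffContOnCl ?_
    rw [hcl]
    exact hd.mono hsub
  have hC : ∀ w ∈ sphere (0 : ℂ) (3 / 4), ‖G (Fin.cons (α := fun _ => ℂ) w z)‖ ≤ B := by
    intro w hw
    have hw' : w ∈ closure (ball (0 : ℂ) (3 / 4)) := by
      rw [hcl]
      exact sphere_subset_closedBall hw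
    have hcont : ContinuousOn (fun w => ‖G (Fin.cons (α := fun _ => ℂ) w z)‖)
        (closure (ball (0 : ℂ) (3 / 4))) := by
      rw [hcl]
      exact (hd.continuousOn.mono hsub).norm
    exact le_on_closure (fun w' hw' => hB _ (Sch_cons h34 (mem_ball_zero_iff.1 hw') hz)) hcont
      continuousOn_const hw'
  have h1 := Complex.norm_iteratedDeriv_le_of_forall_mem_sphere_norm_le m h34 hdc hC
  rw [Sch_iterated hG hz1 m 0 h0] at h1
  rw [Sch_co_pos m G hz1, norm_mul, norm_inv, Complex.norm_natCast]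
  have hf : (0 : ℝ) < (m.factorial : ℝ) := by exact_mod_cast m.factorial_pos
  have h2 : (m.factorial : ℝ) * B / (3 / 4) ^ m = (m.factorial : ℝ) * (B * (4 / 3) ^ m) := by
    rw [mul_div_assoc, div_eq_mul_inv B, ← inv_pow]
    norm_num
  rw [h2] at h1
  rw [inv_mul_le_iff₀ hf]
  exact h1

theorem schwarz (d : ℕ) : ∃ C : ℝ, 0 < C ∧ ∀ T : ℕ, ∃ Φ : (Fin d → Fin T) → ((Fin d → ℂ) → ℂ) → ℂ,
    (∀ i (G G' : (Fin d → ℂ) → ℂ) (c : ℂ), AnalyticOnNhd ℂ G (ball 0 1) → AnalyticOnNhd ℂ G' (ball 0 1) → Φ i (fun z => G z + c * G' z) = Φ i G + c * Φ i G') ∧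
    ∀ (G : (Fin d → ℂ) → ℂ) (B : ℝ), AnalyticOnNhd ℂ G (ball 0 1) → (∀ z ∈ ball (0 : Fin d → ℂ) (3 / 4), ‖G z‖ ≤ B) → (∀ i, Φ i G = 0) →
      ∀ z ∈ ball (0 : Fin d → ℂ) (1 / 2), ‖G z‖ ≤ B * (C * (3 / 4) ^ T) := by
  induction d with
  | zero =>
    refine ⟨1, one_pos, fun T => ⟨fun _ G => G 0, fun _ _ _ _ _ _ => rfl, ?_⟩⟩
    intro G B _ hB hΦ z _
    have h0 : (0 : Fin 0 → ℂ) ∈ ball (0 : Fin 0 → ℂ) (3 / 4) := mem_ball_self (by norm_num)
    have hB0 : 0 ≤ B := (norm_nonneg _).trans (hB 0 h0)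
    have hz : z = 0 := Subsingleton.elim _ _
    have h1 : G 0 = 0 := hΦ fun x => x.elim0
    rw [hz, h1, norm_zero]
    positivity
  | succ d ih =>
    obtain ⟨C, hC, ih⟩ := ih
    refine ⟨9 * (C + 1), by positivity, fun T => ?_⟩
    obtain ⟨Φ, hlin, hest⟩ := ih T
    refine ⟨fun i G => Φ (Fin.tail i) (Sch_co (i 0 : ℕ) G), fun i G G' c hG hG' => ?_, ?_⟩
    · show Φ (Fin.tail i) (Sch_co (i 0 : ℕ) fun z => G z + c * G' z) = _
      rw [Sch_co_add _ c hG hG']
      exact hlin _ _ _ c (Sch_co_an _ hG) (Sch_co_an _ hG')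
    · intro G B hG hB hΦ z hz
      have hB0 : 0 ≤ B := (norm_nonneg _).trans (hB 0 (mem_ball_self (by norm_num)))
      have hzn := mem_ball_zero_iff.1 hz
      rw [pi_norm_lt_iff (by norm_num)] at hzn
      have hw : ‖z 0‖ < 1 / 2 := hzn 0
      have hz' : Fin.tail z ∈ ball (0 : Fin d → ℂ) (1 / 2) := by
        rw [mem_ball_zero_iff, pi_norm_lt_iff (by norm_num)]
        exact fun j => hzn j.succ
      have hz34 : Fin.tail z ∈ ball (0 : Fin d → ℂ) (3 / 4) :=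
        ball_subset_ball (by norm_num) hz'
      have hz1 : Fin.tail z ∈ ball (0 : Fin d → ℂ) 1 := ball_subset_ball (by norm_num) hz'
      have hsum := Sch_sum hG hz1 (w := z 0) (by linarith)
      rw [Fin.cons_self_tail] at hsum
      have hgeo : HasSum (fun m : ℕ => B * ((C + 1) * (3 / 4) ^ T) * (8 / 9 : ℝ) ^ m)
          (B * ((C + 1) * (3 / 4) ^ T) * (1 - 8 / 9)⁻¹) :=
        (hasSum_geometric_of_lt_one (by norm_num) (by norm_num)).mul_left _
      have hle := hsum.norm_le_of_bounded hgeo fun m => ?_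
      · refine hle.trans (le_of_eq ?_)
        norm_num
        ring
      · have hwm : ‖z 0‖ ^ m ≤ (1 / 2 : ℝ) ^ m := pow_le_pow_left₀ (norm_nonneg _) hw.le m
        have h89 : (4 / 3 : ℝ) ^ m * (1 / 2) ^ m = (3 / 4) ^ m * (8 / 9) ^ m := by
          rw [← mul_pow, ← mul_pow]
          norm_num
        have h34le : (3 / 4 : ℝ) ^ m ≤ 1 := pow_le_one₀ (by norm_num) (by norm_num)
        have hT0 : (0 : ℝ) < (3 / 4) ^ T := by positivity
        have h8 : (0 : ℝ) < (8 / 9) ^ m := by positivity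
        rw [norm_mul, norm_pow]
        rcases lt_or_ge m T with hm | hm
        · have h1 := hest (Sch_co m G) (B * (4 / 3) ^ m) (Sch_co_an m hG)
            (fun z hz => Sch_bound hG hB hz m)
            (fun i => by
              have h2 := hΦ (Fin.cons (α := fun _ => Fin T) ⟨m, hm⟩ i)
              simpa using h2) (Fin.tail z) hz'
          calc ‖Sch_co m G (Fin.tail z)‖ * ‖z 0‖ ^ m
              ≤ (B * (4 / 3) ^ m * (C * (3 / 4) ^ T)) * (1 / 2) ^ m :=
                mul_le_mul h1 hwm (by positivity) (by positivity)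
            _ = B * (C * (3 / 4) ^ T) * ((4 / 3) ^ m * (1 / 2) ^ m) := by ring
            _ = B * (C * (3 / 4) ^ T) * ((3 / 4) ^ m * (8 / 9) ^ m) := by rw [h89]
            _ ≤ B * ((C + 1) * (3 / 4) ^ T) * (1 * (8 / 9) ^ m) := by
                refine mul_le_mul ?_ (mul_le_mul_of_nonneg_right h34le h8.le) (by positivity)
                  (by positivity)
                refine mul_le_mul_of_nonneg_left ?_ hB0
                exact mul_le_mul_of_nonneg_right (by linarith) hT0.le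
            _ = B * ((C + 1) * (3 / 4) ^ T) * (8 / 9) ^ m := by rw [one_mul]
        · have h1 := Sch_bound hG hB hz34 m
          have h34m : (3 / 4 : ℝ) ^ m ≤ (3 / 4) ^ T :=
            pow_le_pow_of_le_one (by norm_num) (by norm_num) hm
          calc ‖Sch_co m G (Fin.tail z)‖ * ‖z 0‖ ^ m
              ≤ (B * (4 / 3) ^ m) * (1 / 2) ^ m :=
                mul_le_mul h1 hwm (by positivity) (by positivity)
            _ = B * ((4 / 3) ^ m * (1 / 2) ^ m) := by ring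
            _ = B * ((3 / 4) ^ m * (8 / 9) ^ m) := by rw [h89]
            _ ≤ B * ((3 / 4) ^ T * (8 / 9) ^ m) :=
                mul_le_mul_of_nonneg_left (mul_le_mul_of_nonneg_right h34m h8.le) hB0
            _ ≤ B * ((C + 1) * (3 / 4) ^ T * (8 / 9) ^ m) := by
                refine mul_le_mul_of_nonneg_left (mul_le_mul_of_nonneg_right ?_ h8.le) hB0
                nlinarith
            _ = B * ((C + 1) * (3 / 4) ^ T) * (8 / 9) ^ m := by ring

end Pool.Agent.G4.H
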