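import Pool.Agent.G4.H.Dim
import Pool.Agent.G4.H.Sch
import Pool.Agent.G4.H.Dir
import Pool.Agent.G4.H.Bas

/-!
# G4 H Van: theta functions which vanish to a high order along `Z` in the direction `a`

`Z` closed, invariant under `Γ`, `CovD d Z`, `k = d + 1`.  Let `b` be a real basis in `Γ`, `K` as in `theta_ex`, `R` as in `lv_red`.  The compact set `Z ∩ closedBall 0 R` is covered by finitely many `β i (ball 0 (1/2))`, `i < s`
(`CovD`, compactness); `w₀` = maximum of `wt W (β i t)`, `t ∈ closedBall 0 (3/4)`.  `C` from `schwarz d`; `C'` natural with `exp (K w₀) * (3/4) ^ C' ≤ 1 / (2 (C + 1))`, so for `M = K m²`, `T = C' m²`: `exp (M w₀) * C * (3/4) ^ T < 1`.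
Conditions for `f`: `Φ i' ((dir a)^[j] f ∘ β i) = 0`, `j < l`, `i < s`, `i' : Fin d → Fin T`: `l * s * (C' m²) ^ d` conditions, fewer than `m ^ (2 (k + 1)) = m ^ (2 d + 4)` if `l * s * C' ^ d < m ^ 4`.
Claim: then `(dir a)^[j] f = 0` on `Z` for `j < l`, by strong induction on `j`: by `dir_iter_per` and `ThF.nrm` the function `‖(dir a)^[j] f y‖ * exp (- M wt y)` on `Z` is invariant under the `lv b c`, so its supremum over `Z` is attained at
`y₁ ∈ Z ∩ closedBall 0 R`, `y₁ = β i t₁`; let `S` be the maximum; `‖(dir a)^[j] f (β i t)‖ ≤ S exp (M w₀)` for `t ∈ ball 0 (3/4)`, so `S ≤ ‖(dir a)^[j] f (β i t₁)‖ ≤ S exp (M w₀) C (3/4) ^ T`, `S = 0`.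
-/

set_option autoImplicit false

open Topology Filter Metric

namespace Pool.Agent.G4.H

open Pool.Agent.AD (Vd)
open Pool.Agent.TG (Lat)
open Pool.Agent.G3 (wt)

variable {k r : ℕ} {Γ : AddSubgroup (Vd (k + 1))} {W : Fin r → Vd (k + 1) →L[ℂ] ℂ} {e : Vd (k + 1) → Vd (k + 1) → ℂ}

private theorem wt_cont (W : Fin r → Vd (k + 1) →L[ℂ] ℂ) : Continuous (wt W) := by
  unfold wt
  exact continuous_finsetSum _ fun i _ => ((W i).continuous.norm).pow 2

private theorem wt_nn (W : Fin r → Vd (k + 1) →L[ℂ] ℂ) (y : Vd (k + 1)) : 0 ≤ wt W y := by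
  unfold wt
  exact Finset.sum_nonneg fun i _ => by positivity

private theorem lv_neg (b : RB k) (c : Fin (2 * (k + 1)) → ℤ) : lv b (-c) = -lv b c := by
  unfold lv
  rw [← Finset.sum_neg_distrib]
  refine Finset.sum_congr rfl fun i _ => ?_
  rw [Pi.neg_apply, Int.cast_neg, neg_smul]

/-- finitely many charts -/
private theorem charts {Z : Set (Vd (k + 1))} (hZc : IsClosed Z) {d : ℕ} (hZ : CovD d Z) (R : ℝ) :
    ∃ (I : Type) (_ : Fintype I) (β : I → Vd d → Vd (k + 1)), (∀ i, AnalyticOnNhd ℂ (β i) (ball 0 1)) ∧ (∀ i, ∀ t ∈ ball (0 : Vd d) 1, β i t ∈ Z) ∧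
      ∀ y ∈ Z, ‖y‖ ≤ R → ∃ i, ∃ t ∈ ball (0 : Vd d) (1 / 2), y = β i t := by
  classical
  have hK : IsCompact (Z ∩ closedBall 0 R) := (isCompact_closedBall 0 R).inter_left hZc
  choose s β h1 h2 h3 using hZ
  obtain ⟨t, ht⟩ := hK.elim_nhds_subcover' (fun y hy => {y' | y' ∈ Z → ∃ i, ∃ t ∈ ball (0 : Vd d) (1 / 2), y' = β y hy.1 i t}) (fun y hy => h3 y hy.1)
  refine ⟨Σ x : t, Fin (s x.1.1 x.1.2.1), inferInstance, fun p => β p.1.1.1 p.1.1.2.1 p.2, fun p => h1 _ _ _, fun p => h2 _ _ _, ?_⟩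
  intro y hy hyR
  have h := ht ⟨hy, mem_closedBall_zero_iff.2 hyR⟩
  obtain ⟨x, hx, hxy⟩ := Set.mem_iUnion₂.1 h
  obtain ⟨i, u, hu, e⟩ := hxy hy
  exact ⟨⟨⟨x, hx⟩, i⟩, u, hu, e⟩

private theorem wt_bd (W : Fin r → Vd (k + 1) →L[ℂ] ℂ) {d : ℕ} {I : Type} [Fintype I] {β : I → Vd d → Vd (k + 1)} (h : ∀ i, AnalyticOnNhd ℂ (β i) (ball 0 1)) :
    ∃ w : ℝ, 0 ≤ w ∧ ∀ i, ∀ t ∈ ball (0 : Vd d) (3 / 4), wt W (β i t) ≤ w := by
  have h1 : ∀ i, ∃ C : ℝ, ∀ t ∈ closedBall (0 : Vd d) (3 / 4), ‖wt W (β i t)‖ ≤ C := fun i =>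
    (isCompact_closedBall (0 : Vd d) (3 / 4)).exists_bound_of_continuousOn
      ((wt_cont W).comp_continuousOn ((h i).continuousOn.mono (closedBall_subset_ball (by norm_num))))
  choose C hC using h1
  refine ⟨∑ i, |C i|, Finset.sum_nonneg fun i _ => abs_nonneg _, fun i t ht => ?_⟩
  calc wt W (β i t) ≤ ‖wt W (β i t)‖ := Real.le_norm_self _
    _ ≤ C i := hC i t (ball_subset_closedBall ht)
    _ ≤ |C i| := le_abs_self _
    _ ≤ ∑ i, |C i| := Finset.single_le_sum (f := fun i => |C i|) (fun i _ => abs_nonneg _) (Finset.mem_univ i)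

theorem van (T : ThF Γ W e) {b : RB k} (hb : ∀ i, b i ∈ Γ) {Z : Set (Vd (k + 1))} (hZc : IsClosed Z) (hZi : ∀ y ∈ Z, ∀ l ∈ Γ, y + l ∈ Z) {d : ℕ} (hd : d + 1 = k) (hZ : CovD d Z) (a : Vd (k + 1)) :
    ∃ K A : ℕ, 1 ≤ K ∧ 1 ≤ A ∧ ∀ m l : ℕ, 1 ≤ m → l * A < m ^ 4 → ∃ f : Vd (k + 1) → ℂ, ThM b e (K * m ^ 2) f ∧ (∃ y, f y ≠ 0) ∧ ∀ j < l, ∀ y ∈ Z, (dir a)^[j] f y = 0 := by
  classical
  obtain ⟨K, hK1, hK⟩ := theta_ex T hb
  obtain ⟨R, hR0, hR⟩ := lv_red b
  obtain ⟨I, _, β, hβ1, hβ2, hβ3⟩ := charts hZc hZ R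
  obtain ⟨w, hw0, hw⟩ := wt_bd W hβ1
  obtain ⟨C, hC0, hC⟩ := schwarz d
  obtain ⟨C', hC'⟩ : ∃ n : ℕ, Real.exp (K * w) * (3 / 4 : ℝ) ^ n ≤ 1 / (2 * (C + 1)) := by
    obtain ⟨n, hn⟩ := exists_pow_lt_of_lt_one (show 0 < 1 / (2 * (C + 1)) / Real.exp (K * w) by positivity) (show (3 / 4 : ℝ) < 1 by norm_num)
    refine ⟨n, ?_⟩
    rw [lt_div_iff₀ (Real.exp_pos _)] at hn
    linarith
  refine ⟨K, max 1 (Fintype.card I * C' ^ d), hK1, le_max_left _ _, fun m l hm hl => ?_⟩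
  obtain ⟨Φ, hΦ1, hΦ2⟩ := hC (C' * m ^ 2)
  obtain ⟨f, hf, hf0, hfJ⟩ := hK m hm (Fin l × I × (Fin d → Fin (C' * m ^ 2))) (fun p f => Φ p.2.2 (fun t => (dir a)^[p.1] f (β p.2.1 t)))
    (by
      intro p f g c hf hg
      rw [dir_lin hf hg c p.1]
      exact hΦ1 p.2.2 _ _ c (fun t ht => (dir_an hf p.1 _).comp (hβ1 p.2.1 t ht)) (fun t ht => (dir_an hg p.1 _).comp (hβ1 p.2.1 t ht)))
    (by
      have e1 : Fintype.card (Fin l × I × (Fin d → Fin (C' * m ^ 2))) = l * (Fintype.card I * C' ^ d) * (m ^ 2) ^ d := by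
        simp only [Fintype.card_prod, Fintype.card_fin, Fintype.card_pi, Finset.prod_const, Finset.card_univ, mul_pow]
        ring
      have e2 : m ^ (2 * (k + 1)) = m ^ 4 * (m ^ 2) ^ d := by
        subst hd
        ring
      rw [e1, e2]
      exact Nat.mul_lt_mul_of_pos_right (lt_of_le_of_lt (Nat.mul_le_mul_left l (le_max_right _ _)) hl) (by positivity))
  refine ⟨f, hf, hf0, ?_⟩
  set M : ℕ := K * m ^ 2 with hMdef
  -- the weight
  have hq : Real.exp (M * w) * (C * (3 / 4 : ℝ) ^ (C' * m ^ 2)) ≤ 1 / 2 := by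
    have h1 : Real.exp (M * w) * (3 / 4 : ℝ) ^ (C' * m ^ 2) = (Real.exp (K * w) * (3 / 4 : ℝ) ^ C') ^ (m ^ 2) := by
      rw [mul_pow, ← Real.exp_nat_mul, ← pow_mul, hMdef]
      congr 2
      push_cast
      ring
    have h2 : (Real.exp (K * w) * (3 / 4 : ℝ) ^ C') ^ (m ^ 2) ≤ 1 / (2 * (C + 1)) := by
      have h3 : Real.exp (K * w) * (3 / 4 : ℝ) ^ C' ≤ 1 := hC'.trans (by
        rw [div_le_one (by positivity)]
        linarith)
      calc (Real.exp (K * w) * (3 / 4 : ℝ) ^ C') ^ (m ^ 2) ≤ Real.exp (K * w) * (3 / 4 : ℝ) ^ C' :=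
            pow_le_of_le_one (by positivity) h3 (by positivity)
        _ ≤ _ := hC'
    calc Real.exp (M * w) * (C * (3 / 4 : ℝ) ^ (C' * m ^ 2)) = C * (Real.exp (M * w) * (3 / 4 : ℝ) ^ (C' * m ^ 2)) := by ring
      _ ≤ C * (1 / (2 * (C + 1))) := by
          rw [h1]
          exact mul_le_mul_of_nonneg_left h2 hC0.le
      _ ≤ 1 / 2 := by
          rw [mul_one_div, div_le_div_iff₀ (by positivity) (by positivity)]
          linarith
  intro j
  induction j using Nat.strong_induction_on with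
  | _ j ih =>
    intro hj
    have hD : ∀ y, AnalyticAt ℂ ((dir a)^[j] f) y := dir_an hf.an j
    -- the norm is invariant
    have hinv : ∀ y ∈ Z, ∀ c : Fin (2 * (k + 1)) → ℤ, y + lv b c ∈ Z ∧
        ‖(dir a)^[j] f (y + lv b c)‖ * Real.exp (-(M * wt W (y + lv b c))) = ‖(dir a)^[j] f y‖ * Real.exp (-(M * wt W y)) := by
      intro y hy c
      have hc := lv_mem hb c
      have hyc : y + lv b c ∈ Z := hZi y hy _ hc
      refine ⟨hyc, ?_⟩
      have h1 := dir_iter_per (a := a) (h := fun y => e (lv b c) y ^ M) (fun y => (T.an _ hc y).pow M) hf.an (v := lv b c) (hf.per c) (j := j) (y := y)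
        (fun i hi => ih i hi (hi.trans hj) _ hyc)
      rw [← h1, norm_mul, norm_pow, T.nrm _ hc y, ← Real.exp_nat_mul]
      rw [mul_comm (Real.exp _) ‖_‖, mul_assoc, ← Real.exp_add]
      congr 2
      ring
    -- the maximum
    by_cases hne : (Z ∩ closedBall (0 : Vd (k + 1)) R).Nonempty
    swap
    · intro y hy
      exfalso
      obtain ⟨c, hc⟩ := hR y
      refine hne ⟨y + lv b (-c), (hinv y hy (-c)).1, ?_⟩
      rw [mem_closedBall_zero_iff, lv_neg, ← sub_eq_add_neg]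
      exact hc
    have hcont : Continuous (fun y => ‖(dir a)^[j] f y‖ * Real.exp (-(M * wt W y))) := by
      have h1 : Continuous ((dir a)^[j] f) := continuous_iff_continuousAt.2 fun y => (hD y).continuousAt
      have h2 := wt_cont W
      fun_prop
    obtain ⟨y₁, hy₁, hmax⟩ := ((isCompact_closedBall (0 : Vd (k + 1)) R).inter_left hZc).exists_isMaxOn hne hcont.continuousOn
    set S : ℝ := ‖(dir a)^[j] f y₁‖ * Real.exp (-(M * wt W y₁)) with hS
    have hSall : ∀ y ∈ Z, ‖(dir a)^[j] f y‖ * Real.exp (-(M * wt W y)) ≤ S := by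
      intro y hy
      obtain ⟨c, hc⟩ := hR y
      obtain ⟨h1, h2⟩ := hinv y hy (-c)
      rw [← h2]
      refine hmax ⟨h1, ?_⟩
      rw [mem_closedBall_zero_iff, lv_neg, ← sub_eq_add_neg]
      exact hc
    have hS0 : 0 ≤ S := by positivity
    obtain ⟨i, t₁, ht₁, hyt⟩ := hβ3 y₁ hy₁.1 (mem_closedBall_zero_iff.1 hy₁.2)
    have h1 := hΦ2 (fun t => (dir a)^[j] f (β i t)) (S * Real.exp (M * w)) (fun t ht => (hD _).comp (hβ1 i t ht))
      (by
        intro t ht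
        have h2 := hSall (β i t) (hβ2 i t (ball_subset_ball (by norm_num) ht))
        have h3 : ‖(dir a)^[j] f (β i t)‖ = ‖(dir a)^[j] f (β i t)‖ * Real.exp (-(M * wt W (β i t))) * Real.exp (M * wt W (β i t)) := by
          rw [mul_assoc, ← Real.exp_add, neg_add_cancel, Real.exp_zero, mul_one]
        rw [h3]
        refine mul_le_mul h2 ?_ (Real.exp_pos _).le hS0
        exact Real.exp_le_exp.2 (mul_le_mul_of_nonneg_left (hw i t ht) (Nat.cast_nonneg _)))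
      (fun i' => hfJ ⟨⟨j, hj⟩, i, i'⟩) t₁ ht₁
    simp only [← hyt] at h1
    have h2 : S ≤ S * (1 / 2) := by
      calc S ≤ ‖(dir a)^[j] f y₁‖ * 1 := by
            rw [hS]
            refine mul_le_mul_of_nonneg_left ?_ (norm_nonneg _)
            rw [Real.exp_le_one_iff]
            have := mul_nonneg (Nat.cast_nonneg (α := ℝ) M) (wt_nn W y₁)
            linarith
        _ ≤ S * Real.exp (M * w) * (C * (3 / 4) ^ (C' * m ^ 2)) := by
            rw [mul_one]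
            exact h1
        _ = S * (Real.exp (M * w) * (C * (3 / 4) ^ (C' * m ^ 2))) := by ring
        _ ≤ S * (1 / 2) := mul_le_mul_of_nonneg_left hq hS0
    have h3 : S = 0 := by linarith
    intro y hy
    have h4 := hSall y hy
    rw [h3] at h4
    have h5 : ‖(dir a)^[j] f y‖ ≤ 0 := by
      by_contra hcon
      push Not at hcon
      have := mul_pos hcon (Real.exp_pos (-(M * wt W y)))
      linarith
    exact norm_le_zero_iff.1 h5

end Pool.Agent.G4.H
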