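import Pool.Agent.G4.H.Coc
import Pool.Agent.G4.H.Van
import Pool.Agent.G4.H.Jen
import Pool.Agent.G4.H.Lb

/-!
# G4 H Main: few bad hits
-/

set_option autoImplicit false

open Topology Filter Metric

namespace Pool.Agent.G4.H

open Pool.Agent.H36.BP (EN)
open Pool.Agent.AD (Vd)
open Pool.Agent.TG (Lat VForm)
open Pool.Agent.G3 (wt)
open Pool.Agent.G3.A (Frm Ba)

variable {N k : ℕ} {X : Set (EN N)} {Λ Γ : AddSubgroup (Vd (k + 1))} {u : EN N → Vd (k + 1)} {D : Set (Vd (k + 1))} {J r : ℕ}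
  {W : Fin r → Vd (k + 1) →L[ℂ] ℂ} {α : Fin J → VForm X Λ u}

theorem few_thf {e : Vd (k + 1) → Vd (k + 1) → ℂ} (T : ThF Γ W e) (hΛ : Lat Λ) (hs : Simp Λ) (hle : Γ ≤ Λ) {Z : Set (Vd (k + 1))} (hZc : IsClosed Z) (hZi : ∀ y ∈ Z, ∀ l ∈ Λ, y + l ∈ Z) (hZ : Cov Z)
    {a : Vd (k + 1)} (ha : a ≠ 0) : Few Z a := by
  obtain ⟨b, hb⟩ := exists_rb T.lat
  rcases hZ with hZ0 | ⟨d, hd, hZd⟩
  · intro ε hε
    refine ⟨0, fun y R _ S hS => ?_⟩
    have h0 : S = ∅ := by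
      rw [Finset.eq_empty_iff_forall_notMem]
      intro z hz
      have h1 := (hS z hz).2
      rw [hZ0] at h1
      exact h1
    rw [h0, Finset.card_empty, Nat.cast_zero, add_zero]
    positivity
  obtain ⟨K, A, hK, hA, hvan⟩ := van T hb hZc (fun y hy l hl => hZi y hy l (hle hl)) hd hZd a
  obtain ⟨q, hq⟩ : ∃ q, q = wt W a := ⟨_, rfl⟩
  have hq0 : 0 ≤ q := by
    rw [hq]
    unfold wt
    positivity
  intro ε hε
  -- the parameters
  obtain ⟨p, hp⟩ := exists_nat_gt (max 2 (64 * K * q / ε))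
  have hp2 : (2 : ℝ) < p := (le_max_left _ _).trans_lt hp
  have hpε : 64 * K * q / ε < p := (le_max_right _ _).trans_lt hp
  have hp2' : 2 < p := by exact_mod_cast hp2
  obtain ⟨m, hm⟩ : ∃ m : ℕ, m = A * p := ⟨_, rfl⟩
  have hm1 : 1 ≤ m := by
    rw [hm]
    exact Nat.one_le_iff_ne_zero.2 (Nat.mul_ne_zero (by omega) (by omega))
  have hAp : 2 ≤ A ^ 3 * p ^ 4 := by
    have h1 : 1 ≤ A ^ 3 := Nat.one_le_pow _ _ hA
    have h2 : p ≤ p ^ 4 := Nat.le_self_pow (by norm_num) p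
    calc 2 ≤ p ^ 4 := by omega
      _ = 1 * p ^ 4 := (one_mul _).symm
      _ ≤ A ^ 3 * p ^ 4 := Nat.mul_le_mul_right _ h1
  obtain ⟨l, hl⟩ : ∃ l : ℕ, l = A ^ 3 * p ^ 4 - 1 := ⟨_, rfl⟩
  have hl1 : l + 1 = A ^ 3 * p ^ 4 := by omega
  have hlA : l * A < m ^ 4 := by
    have h1 : (l + 1) * A = m ^ 4 := by
      rw [hl1, hm]
      ring
    have h2 : (l + 1) * A = l * A + A := by ring
    omega
  obtain ⟨f, hf, hf0, hfz⟩ := hvan m l hm1 hlA
  obtain ⟨M, hM⟩ : ∃ M : ℕ, M = K * m ^ 2 := ⟨_, rfl⟩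
  rw [← hM] at hf
  obtain ⟨B, hB0, hB⟩ := thm_up T hb hf
  obtain ⟨m₀, hm₀, hlow⟩ := thm_low T hb hΛ hs hle hf hf0 ha
  have hl0 : (0 : ℝ) < l := by
    have : 0 < l := by omega
    exact_mod_cast this
  have hl2 : (A : ℝ) ^ 3 * p ^ 4 ≤ 2 * l := by
    have h1 : A ^ 3 * p ^ 4 ≤ 2 * l := by omega
    exact_mod_cast h1
  refine ⟨ε + |Real.log (B / m₀)|, fun y R hR S hS => ?_⟩
  obtain ⟨z₁, hz₁, hz₁f⟩ := hlow y
  obtain ⟨c, hc⟩ := wt_line W y a z₁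
  have han : ∀ y, AnalyticAt ℂ f y := hf.an
  have hφ : Differentiable ℂ fun z : ℂ => f (y + z • a) := by
    intro z
    have h1 : DifferentiableAt ℂ (fun z : ℂ => y + z • a) z := by fun_prop
    exact (han _).differentiableAt.comp z h1
  have hmem : ∀ z ∈ S, y + z • a ∈ Z := fun z hz => (hS z hz).2
  have hj := jen (φ := fun z : ℂ => f (y + z • a)) hφ (B := B) (M := M) (w₀ := wt W (y + z₁ • a)) (q := q) (m₀ := m₀) (R := R + 1) (c := c) (z₁ := z₁) (by linarith) hm₀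
    (fun z => by
      have h1 := hB (y + z • a)
      rw [hc z, ← hq] at h1
      exact h1) hz₁f (S := S) (l := l) (fun e he => by
      have h1 := norm_sub_le e z₁
      have h2 := (hS e he).1
      linarith) (fun e he => dir_zero han fun j hj => hfz j hj _ (hmem e he))
  have hpos : (0 : ℝ) < p := by linarith
  have hA1 : (1 : ℝ) ≤ A := by exact_mod_cast hA
  have hKq : 64 * K * q ≤ ε * p := by
    rw [div_lt_iff₀ hε] at hpε
    linarith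
  have hlin : 16 * (M : ℝ) * q * (R + 1) ^ 2 ≤ l * (ε * R ^ 2 + ε) := by
    have e1 : (M : ℝ) = K * (A ^ 2 * p ^ 2) := by
      rw [hM, hm]
      push_cast
      ring
    have h1 : (R + 1) ^ 2 ≤ 2 * R ^ 2 + 2 := by nlinarith [sq_nonneg (R - 1)]
    have h2 : 0 ≤ (A : ℝ) ^ 2 * p ^ 2 := by positivity
    have h3 : 0 ≤ (K : ℝ) * q := by positivity
    have hp1 : (1 : ℝ) ≤ p := by linarith
    calc 16 * (M : ℝ) * q * (R + 1) ^ 2 ≤ 16 * (M : ℝ) * q * (2 * R ^ 2 + 2) := by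
          refine mul_le_mul_of_nonneg_left h1 ?_
          positivity
      _ = (64 * K * q) * (A ^ 2 * p ^ 2) * ((R ^ 2 + 1) / 2) := by rw [e1]; ring
      _ ≤ (ε * p) * (A ^ 2 * p ^ 2) * ((R ^ 2 + 1) / 2) := by gcongr
      _ = (A ^ 2 * p ^ 3) * (ε * R ^ 2 + ε) / 2 := by ring
      _ ≤ (A ^ 3 * p ^ 4) * (ε * R ^ 2 + ε) / 2 := by
          have h4 : (A : ℝ) ^ 2 ≤ A ^ 3 := pow_le_pow_right₀ hA1 (by norm_num)
          have h5 : (p : ℝ) ^ 3 ≤ p ^ 4 := pow_le_pow_right₀ hp1 (by norm_num)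
          gcongr
      _ ≤ (2 * l) * (ε * R ^ 2 + ε) / 2 := by gcongr
      _ = l * (ε * R ^ 2 + ε) := by ring
  have hlog : Real.log (B / m₀) ≤ l * |Real.log (B / m₀)| := by
    have h1 : (1 : ℝ) ≤ l := by
      have : 1 ≤ l := by omega
      exact_mod_cast this
    calc Real.log (B / m₀) ≤ |Real.log (B / m₀)| := le_abs_self _
      _ = 1 * |Real.log (B / m₀)| := (one_mul _).symm
      _ ≤ l * |Real.log (B / m₀)| := mul_le_mul_of_nonneg_right h1 (abs_nonneg _)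
  have hfin : (l : ℝ) * S.card ≤ l * (ε * R ^ 2 + (ε + |Real.log (B / m₀)|)) := by
    calc (l : ℝ) * S.card ≤ 16 * M * q * (R + 1) ^ 2 + Real.log (B / m₀) := hj
      _ ≤ l * (ε * R ^ 2 + ε) + l * |Real.log (B / m₀)| := add_le_add hlin hlog
      _ = _ := by ring
  exact le_of_mul_le_mul_left hfin hl0

theorem few_of_cov (hΛ : Lat Λ) (hs : Simp Λ) (hF : Frm X Λ u D Γ W α) (hx : ∃ y ∉ D, ∃ x ∈ X, u x - y ∈ Λ) {Z : Set (Vd (k + 1))} (hZc : IsClosed Z) (hZi : ∀ y ∈ Z, ∀ l ∈ Λ, y + l ∈ Z) (hZ : Cov Z)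
    {a : Vd (k + 1)} (ha : a ≠ 0) : Few Z a := by
  obtain ⟨e, T⟩ := thf_of_frm hF hx
  exact few_thf T hΛ hs hF.le hZc hZi hZ ha

end Pool.Agent.G4.H
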