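import Pool.Agent.G4.H.Bas
import Pool.Agent.TN.Osg

/-!
# G4 H Ser: the theta series

`pk_norm`: `‖pk W M p y‖ * exp (- M wt y) = exp (- M wt (y - p))`.  `term_norm`: so the terms of the series satisfy `‖e (lv b c) y ^ M * pk W M p (y + lv b c)‖ * exp (- M wt y) = exp (- M wt (y + lv b c - p))`.
`gsum`: `∑ c, exp (- M wt (y + lv b c - p))` converges, locally uniformly in `y` (`wt_low`, `lv_low`: `wt (y + lv b c - p) ≥ c₀ (κ ∑ |c i| - R)²₊ ≥ κ' ∑ |c i| - R'`).
`th_thm`: `th b W e M p` is analytic (locally uniform limit of analytic functions: differentiable by `hasFDerivAt_tsum` with Cauchy bounds, or restrict to finite sums and use a Weierstrass theorem of the library) and quasi-periodic: from `ThF.coc`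
`e (lv b c') y ^ M * e (lv b c) (y + lv b c') ^ M = e (lv b (c + c')) y ^ M`, reindex the sum.  `th_norm`: the bound by the sum of the norms; `th_diag`: the term with `y + lv b c = p` has size `1`.
-/

set_option autoImplicit false

open Topology Filter Metric

namespace Pool.Agent.G4.H

open Pool.Agent.AD (Vd)
open Pool.Agent.TG (Lat)
open Pool.Agent.G3 (wt)

variable {k r : ℕ} {Γ : AddSubgroup (Vd (k + 1))} {W : Fin r → Vd (k + 1) →L[ℂ] ℂ} {e : Vd (k + 1) → Vd (k + 1) → ℂ} {b : RB k} {M : ℕ}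

theorem pk_norm (W : Fin r → Vd (k + 1) →L[ℂ] ℂ) (M : ℕ) (p y : Vd (k + 1)) : ‖pk W M p y‖ * Real.exp (-(M * wt W y)) = Real.exp (-(M * wt W (y - p))) := by
  unfold pk wt
  rw [Complex.norm_exp, ← Real.exp_add]
  congr 1
  have e1 : ((M : ℂ) * ∑ i, (2 * (starRingEnd ℂ) (W i p) * W i y - (starRingEnd ℂ) (W i p) * W i p)).re =
      (M : ℝ) * ∑ i, (2 * (starRingEnd ℂ) (W i p) * W i y - (starRingEnd ℂ) (W i p) * W i p).re := by
    rw [← Complex.re_sum, ← Complex.re_ofReal_mul, Complex.ofReal_natCast]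
  rw [e1, ← mul_neg, ← mul_neg, ← mul_add, ← Finset.sum_neg_distrib, ← Finset.sum_neg_distrib, ← Finset.sum_add_distrib]
  congr 1
  refine Finset.sum_congr rfl fun i _ => ?_
  rw [map_sub, ← Complex.normSq_eq_norm_sq, ← Complex.normSq_eq_norm_sq]
  simp only [Complex.normSq_apply, Complex.sub_re, Complex.sub_im, Complex.mul_re, Complex.mul_im, Complex.conj_re, Complex.conj_im, Complex.re_ofNat, Complex.im_ofNat]
  ring

theorem term_norm (T : ThF Γ W e) (hb : ∀ i, b i ∈ Γ) (M : ℕ) (p y : Vd (k + 1)) (c : Fin (2 * (k + 1)) → ℤ) :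
    ‖e (lv b c) y ^ M * pk W M p (y + lv b c)‖ * Real.exp (-(M * wt W y)) = Real.exp (-(M * wt W (y + lv b c - p))) := by
  rw [norm_mul, norm_pow, T.nrm _ (lv_mem hb c) y, ← pk_norm W M p (y + lv b c), ← Real.exp_nat_mul]
  have e1 : Real.exp ((M : ℝ) * (wt W y - wt W (y + lv b c))) = Real.exp (-(M * wt W (y + lv b c))) * Real.exp (M * wt W y) := by
    rw [← Real.exp_add]
    congr 1
    ring
  have e2 : Real.exp ((M : ℝ) * wt W y) * Real.exp (-(M * wt W y)) = 1 := by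
    rw [← Real.exp_add, add_neg_cancel, Real.exp_zero]
  rw [e1]
  calc Real.exp (-(M * wt W (y + lv b c))) * Real.exp (M * wt W y) * ‖pk W M p (y + lv b c)‖ * Real.exp (-(M * wt W y))
      = ‖pk W M p (y + lv b c)‖ * Real.exp (-(M * wt W (y + lv b c))) * (Real.exp ((M : ℝ) * wt W y) * Real.exp (-(M * wt W y))) := by ring
    _ = _ := by rw [e2, mul_one]

private theorem ser_prod (g : ℤ → ℝ) (hg0 : ∀ k, 0 ≤ g k) (hs : Summable g) (n : ℕ) :
    Summable fun k : Fin n → ℤ => ∏ j, g (k j) := by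
  induction n with
  | zero => exact Summable.of_finite
  | succ n ih =>
    rw [← (Fin.consEquiv fun _ : Fin (n + 1) => ℤ).summable_iff]
    have h1 := hs.mul_of_nonneg ih hg0 (fun k => Finset.prod_nonneg fun j _ => hg0 _)
    refine h1.congr fun k => ?_
    simp [Fin.prod_univ_succ, Fin.consEquiv]

private theorem ser_int {a : ℝ} (ha : 0 < a) : Summable fun k : ℤ => Real.exp (-(a * |(k : ℝ)|)) := by
  have h0 : Summable fun n : ℕ => Real.exp (-a) ^ n := by
    refine summable_geometric_of_lt_one (Real.exp_pos _).le ?_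
    rw [Real.exp_lt_one_iff]
    linarith
  have h1 : ∀ n : ℕ, Real.exp (-(a * (n : ℝ))) = Real.exp (-a) ^ n := fun n => by
    rw [← Real.exp_nat_mul]
    congr 1
    ring
  refine Summable.of_nat_of_neg ?_ ?_
  · simp only [Int.cast_natCast, Nat.abs_cast, h1]
    exact h0
  · simp only [Int.cast_neg, Int.cast_natCast, abs_neg, Nat.abs_cast, h1]
    exact h0

private theorem ser_sum {a : ℝ} (ha : 0 < a) (n : ℕ) : Summable fun c : Fin n → ℤ => Real.exp (-(a * ∑ i, |(c i : ℝ)|)) := by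
  have e : (fun c : Fin n → ℤ => Real.exp (-(a * ∑ i, |(c i : ℝ)|))) = fun c : Fin n → ℤ => ∏ i, Real.exp (-(a * |(c i : ℝ)|)) := by
    funext c
    rw [← Real.exp_sum, Finset.mul_sum, ← Finset.sum_neg_distrib]
  rw [e]
  exact ser_prod (fun k => Real.exp (-(a * |(k : ℝ)|))) (fun k => (Real.exp_pos _).le) (ser_int ha) n

/-- the weights of the translates grow -/
private theorem ser_wt (hW : ∀ y, (∀ i, W i y = 0) → y = 0) (b : RB k) (R : ℝ) :
    ∃ α β : ℝ, 0 < α ∧ ∀ y : Vd (k + 1), ‖y‖ ≤ R → ∀ c, α * ∑ i, |(c i : ℝ)| - β ≤ wt W (y + lv b c) := by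
  obtain ⟨c₀, hc₀, h0⟩ := wt_low hW
  obtain ⟨κ, hκ, h1⟩ := lv_low b
  refine ⟨2 * c₀ * κ, c₀ * (2 * R + 1), by positivity, fun y hy c => ?_⟩
  have h2 := h0 (y + lv b c)
  have h3 := h1 c
  have h4 : ‖lv b c‖ ≤ ‖y + lv b c‖ + ‖y‖ := by
    calc ‖lv b c‖ = ‖(y + lv b c) - y‖ := by rw [add_sub_cancel_left]
      _ ≤ _ := norm_sub_le _ _
  have h5 : 2 * ‖y + lv b c‖ - 1 ≤ ‖y + lv b c‖ ^ 2 := by nlinarith [sq_nonneg (‖y + lv b c‖ - 1)]
  have h6 : 2 * (κ * ∑ i, |(c i : ℝ)| - R) - 1 ≤ ‖y + lv b c‖ ^ 2 := by linarith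
  calc 2 * c₀ * κ * ∑ i, |(c i : ℝ)| - c₀ * (2 * R + 1) = c₀ * (2 * (κ * ∑ i, |(c i : ℝ)| - R) - 1) := by ring
    _ ≤ c₀ * ‖y + lv b c‖ ^ 2 := mul_le_mul_of_nonneg_left h6 hc₀.le
    _ ≤ _ := h2

theorem gsum (hW : ∀ y, (∀ i, W i y = 0) → y = 0) (b : RB k) {s : ℝ} (hs : 0 < s) (y : Vd (k + 1)) :
    Summable fun c : Fin (2 * (k + 1)) → ℤ => Real.exp (-(s * wt W (y + lv b c))) := by
  obtain ⟨α, β, hα, h⟩ := ser_wt hW b ‖y‖
  refine Summable.of_nonneg_of_le (fun c => (Real.exp_pos _).le) (fun c => ?_)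
    ((ser_sum (mul_pos hs hα) (2 * (k + 1))).mul_left (Real.exp (s * β)))
  rw [← Real.exp_add]
  refine Real.exp_le_exp.2 ?_
  have h1 := mul_le_mul_of_nonneg_left (h y le_rfl c) hs.le
  linarith

/-- for large `s` the terms with `c ≠ 0` are small -/
theorem gsum_small (hW : ∀ y, (∀ i, W i y = 0) → y = 0) (b : RB k) : ∃ K : ℕ, 1 ≤ K ∧ ∀ s : ℝ, K ≤ s →
    ∀ S : Finset (Fin (2 * (k + 1)) → ℤ), (0 : Fin (2 * (k + 1)) → ℤ) ∉ S → ∑ c ∈ S, Real.exp (-(s * wt W (lv b c))) ≤ 1 / 4 := by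
  obtain ⟨c₀, hc₀, h0⟩ := wt_low hW
  obtain ⟨κ, hκ, h1⟩ := lv_low b
  set a : ℝ := c₀ * κ ^ 2 with ha
  have ha0 : 0 < a := by positivity
  have hsm := ser_sum ha0 (2 * (k + 1))
  set C : ℝ := ∑' c : Fin (2 * (k + 1)) → ℤ, Real.exp (-(a * ∑ i, |(c i : ℝ)|)) with hC
  have hC0 : 0 ≤ C := tsum_nonneg fun c => (Real.exp_pos _).le
  refine ⟨⌈4 * C / a⌉₊ + 1, by omega, fun s hs S hS => ?_⟩
  have hs1 : 4 * C / a + 1 ≤ s := by
    refine le_trans ?_ hs
    push_cast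
    linarith [Nat.le_ceil (4 * C / a)]
  have hs2 : 4 * C ≤ (s - 1) * a := by
    rw [← div_le_iff₀ ha0]
    linarith
  have hs3 : 1 ≤ s := by
    have : 0 ≤ 4 * C / a := by positivity
    linarith
  have hterm : ∀ c ∈ S, Real.exp (-(s * wt W (lv b c))) ≤ Real.exp (-((s - 1) * a)) * Real.exp (-(a * ∑ i, |(c i : ℝ)|)) := by
    intro c hc
    rw [← Real.exp_add]
    refine Real.exp_le_exp.2 ?_
    have hne : c ≠ 0 := fun h => hS (h ▸ hc)
    have hS1 : 1 ≤ ∑ i, |(c i : ℝ)| := by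
      obtain ⟨i, hi⟩ := Function.ne_iff.1 hne
      have h2 : (1 : ℝ) ≤ |(c i : ℝ)| := by
        have h3 : (1 : ℤ) ≤ |c i| := Int.one_le_abs hi
        have h4 : ((1 : ℤ) : ℝ) ≤ ((|c i| : ℤ) : ℝ) := Int.cast_le.2 h3
        rw [Int.cast_abs, Int.cast_one] at h4
        exact h4
      exact h2.trans (Finset.single_le_sum (f := fun i => |(c i : ℝ)|) (fun j _ => abs_nonneg _) (Finset.mem_univ i))
    set t : ℝ := ∑ i, |(c i : ℝ)| with ht
    have h2 : a * t ^ 2 ≤ wt W (lv b c) := by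
      have h3 : (κ * t) ^ 2 ≤ ‖lv b c‖ ^ 2 := pow_le_pow_left₀ (by positivity) (h1 c) 2
      calc a * t ^ 2 = c₀ * (κ * t) ^ 2 := by rw [ha]; ring
        _ ≤ c₀ * ‖lv b c‖ ^ 2 := mul_le_mul_of_nonneg_left h3 hc₀.le
        _ ≤ _ := h0 _
    have h3 : a * t ≤ a * t ^ 2 := by
      refine mul_le_mul_of_nonneg_left ?_ ha0.le
      nlinarith
    have h4 : s * (a * t) ≤ s * wt W (lv b c) := mul_le_mul_of_nonneg_left (h3.trans h2) (by linarith)
    have h5 : (s - 1) * a ≤ (s - 1) * a * t := by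
      refine le_mul_of_one_le_right ?_ hS1
      exact mul_nonneg (by linarith) ha0.le
    nlinarith
  calc ∑ c ∈ S, Real.exp (-(s * wt W (lv b c))) ≤ ∑ c ∈ S, Real.exp (-((s - 1) * a)) * Real.exp (-(a * ∑ i, |(c i : ℝ)|)) := Finset.sum_le_sum hterm
    _ = Real.exp (-((s - 1) * a)) * ∑ c ∈ S, Real.exp (-(a * ∑ i, |(c i : ℝ)|)) := by rw [Finset.mul_sum]
    _ ≤ Real.exp (-((s - 1) * a)) * C := by
        refine mul_le_mul_of_nonneg_left ?_ (Real.exp_pos _).le
        exact hsm.sum_le_tsum S fun c _ => (Real.exp_pos _).le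
    _ ≤ 1 / 4 := by
        rw [Real.exp_neg, inv_mul_le_iff₀ (Real.exp_pos _)]
        have h6 := Real.add_one_le_exp ((s - 1) * a)
        linarith

private theorem ser_pk_diff (W : Fin r → Vd (k + 1) →L[ℂ] ℂ) (M : ℕ) (p : Vd (k + 1)) : Differentiable ℂ (pk W M p) := by
  unfold pk
  refine Complex.differentiable_exp.comp ?_
  refine (Differentiable.const_mul ?_ _)
  refine Differentiable.fun_sum fun i _ => ?_
  exact ((W i).differentiable.const_mul _).sub_const _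

/-- the terms are holomorphic -/
private theorem ser_term (T : ThF Γ W e) (hb : ∀ i, b i ∈ Γ) (M : ℕ) (p : Vd (k + 1)) (c : Fin (2 * (k + 1)) → ℤ) :
    Differentiable ℂ fun y => e (lv b c) y ^ M * pk W M p (y + lv b c) := by
  have h1 : Differentiable ℂ (e (lv b c)) := fun y => (T.an _ (lv_mem hb c) y).differentiableAt
  have h2 : Differentiable ℂ fun y : Vd (k + 1) => pk W M p (y + lv b c) :=
    (ser_pk_diff W M p).comp (differentiable_id.add_const _)
  exact (h1.pow M).mul h2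

/-- bounds of the terms, uniform on a ball -/
private theorem ser_bound (T : ThF Γ W e) (hb : ∀ i, b i ∈ Γ) (hM : 1 ≤ M) (p w : Vd (k + 1)) :
    ∃ v : (Fin (2 * (k + 1)) → ℤ) → ℝ, Summable v ∧ ∀ c, ∀ y ∈ ball w 1, ‖e (lv b c) y ^ M * pk W M p (y + lv b c)‖ ≤ v c := by
  obtain ⟨α, β, hα, h⟩ := ser_wt T.pos b (‖w - p‖ + 1)
  have hM0 : (0 : ℝ) < M := by exact_mod_cast hM
  set B : ℝ := ∑ i, (‖W i‖ * (‖w‖ + 1)) ^ 2 with hB
  have hBw : ∀ y ∈ ball w 1, wt W y ≤ B := by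
    intro y hy
    rw [mem_ball, dist_eq_norm] at hy
    refine Finset.sum_le_sum fun i _ => ?_
    refine pow_le_pow_left₀ (norm_nonneg _) (((W i).le_opNorm y).trans ?_) 2
    refine mul_le_mul_of_nonneg_left ?_ (norm_nonneg _)
    calc ‖y‖ = ‖(y - w) + w‖ := by rw [sub_add_cancel]
      _ ≤ ‖y - w‖ + ‖w‖ := norm_add_le _ _
      _ ≤ ‖w‖ + 1 := by linarith
  refine ⟨fun c => Real.exp (M * B + M * β) * Real.exp (-(M * α * ∑ i, |(c i : ℝ)|)),
    (ser_sum (mul_pos hM0 hα) (2 * (k + 1))).mul_left _, fun c y hy => ?_⟩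
  have h1 := term_norm T hb M p y c
  have h2 : ‖e (lv b c) y ^ M * pk W M p (y + lv b c)‖ = Real.exp (-(M * wt W (y + lv b c - p))) * Real.exp (M * wt W y) := by
    rw [← h1, mul_assoc, ← Real.exp_add, neg_add_cancel, Real.exp_zero, mul_one]
  rw [h2, ← Real.exp_add]
  show _ ≤ Real.exp (M * B + M * β) * Real.exp (-(M * α * ∑ i, |(c i : ℝ)|))
  rw [← Real.exp_add]
  refine Real.exp_le_exp.2 ?_
  have h3 : ‖y - p‖ ≤ ‖w - p‖ + 1 := by
    rw [mem_ball, dist_eq_norm] at hy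
    calc ‖y - p‖ = ‖(y - w) + (w - p)‖ := by rw [sub_add_sub_cancel]
      _ ≤ ‖y - w‖ + ‖w - p‖ := norm_add_le _ _
      _ ≤ ‖w - p‖ + 1 := by linarith
  have h4 := mul_le_mul_of_nonneg_left (h (y - p) h3 c) hM0.le
  have h5 := mul_le_mul_of_nonneg_left (hBw y hy) hM0.le
  have h6 : y - p + lv b c = y + lv b c - p := by abel
  rw [h6] at h4
  linarith

theorem th_thm (T : ThF Γ W e) (hb : ∀ i, b i ∈ Γ) (hM : 1 ≤ M) (p : Vd (k + 1)) : ThM b e M (th b W e M p) := by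
  refine ⟨fun w => ?_, fun c y => ?_⟩
  · obtain ⟨v, hv, hvb⟩ := ser_bound T hb hM p w
    refine Pool.Agent.TN.osgood_pi (r := 1) (M := ∑' c, v c) one_pos (fun y hy => ?_) fun y hy l => ?_
    · exact tsum_of_norm_bounded hv.hasSum fun c => hvb c y hy
    · obtain ⟨s, hs, hsb⟩ := Metric.isOpen_iff.1 (isOpen_ball (x := w) (ε := 1)) y hy
      have hmaps : Set.MapsTo (fun t : ℂ => y + t • (Pi.single l 1 : Vd (k + 1))) (ball 0 s) (ball w 1) := by
        intro t ht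
        apply hsb
        rw [mem_ball, dist_eq_norm, add_sub_cancel_left, norm_smul]
        rw [mem_ball, dist_zero_right] at ht
        have h1 : ‖(Pi.single l 1 : Vd (k + 1))‖ ≤ 1 := by
          refine (pi_norm_le_iff_of_nonneg zero_le_one).2 fun j => ?_
          by_cases hj : j = l
          · subst hj
            simp
          · simp [Pi.single_eq_of_ne hj]
        calc ‖t‖ * ‖(Pi.single l 1 : Vd (k + 1))‖ ≤ ‖t‖ * 1 := by gcongr
          _ < s := by rw [mul_one]; exact ht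
      have h2 : DifferentiableOn ℂ (fun t : ℂ => ∑' c : Fin (2 * (k + 1)) → ℤ,
          (e (lv b c) (y + t • (Pi.single l 1 : Vd (k + 1))) ^ M * pk W M p ((y + t • (Pi.single l 1 : Vd (k + 1))) + lv b c))) (ball 0 s) := by
        refine Complex.differentiableOn_tsum_of_summable_norm hv (fun c => ?_) isOpen_ball fun c t ht => hvb c _ (hmaps ht)
        have h4 : Differentiable ℂ (fun t : ℂ => y + t • (Pi.single l 1 : Vd (k + 1))) := by fun_prop
        exact ((ser_term T hb M p c).comp h4).differentiableOn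
      exact h2.differentiableAt (isOpen_ball.mem_nhds (mem_ball_self hs))
  · unfold th
    rw [← tsum_mul_left, ← (Equiv.addRight c).tsum_eq fun c'' : Fin (2 * (k + 1)) → ℤ => e (lv b c'') y ^ M * pk W M p (y + lv b c'')]
    refine tsum_congr fun c' => ?_
    rw [Equiv.coe_addRight, lv_add, T.coc _ (lv_mem hb c') _ (lv_mem hb c) y, mul_pow, add_comm (lv b c') (lv b c), ← add_assoc]
    ring

theorem th_summable (T : ThF Γ W e) (hb : ∀ i, b i ∈ Γ) (hM : 1 ≤ M) (p y : Vd (k + 1)) :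
    Summable fun c : Fin (2 * (k + 1)) → ℤ => ‖e (lv b c) y ^ M * pk W M p (y + lv b c)‖ := by
  obtain ⟨v, hv, hvb⟩ := ser_bound T hb hM p y
  exact Summable.of_nonneg_of_le (fun c => norm_nonneg _) (fun c => hvb c y (mem_ball_self one_pos)) hv

end Pool.Agent.G4.H
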